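import Mathlib

set_option autoImplicit false
set_option linter.unusedSectionVars false

namespace Pool.Agent.Helper41.MVC

open MeasureTheory Metric Set Filter Topology
open scoped RealInnerProductSpace Pointwise ENNReal

variable {E : Type*} [NormedAddCommGroup E] [InnerProductSpace ℝ E] [FiniteDimensional ℝ E]
  [MeasurableSpace E] [BorelSpace E]

/-- the Riesz kernel is integrable on balls -/
theorem integrableOn_rz (hn : 1 ≤ Module.finrank ℝ E) {a : ℝ} (ha : -(Module.finrank ℝ E : ℝ) < a) (δ : ℝ) :
    IntegrableOn (fun y : E => ‖y‖ ^ a) (ball 0 δ) := by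
  apply integrableOn_ball_of_norm_le_rpow (C := 1) (α := -a) hn (by linarith)
  · refine Filter.Eventually.of_forall fun y => ?_
    rw [neg_neg, one_mul, Real.norm_of_nonneg (by positivity)]
  · exact (by fun_prop : Measurable fun y : E => ‖y‖ ^ a).aestronglyMeasurable

/-- integral of the Riesz kernel over a ball -/
noncomputable def rz (E : Type*) [NormedAddCommGroup E] [InnerProductSpace ℝ E] [FiniteDimensional ℝ E]
    [MeasurableSpace E] [BorelSpace E] (a δ : ℝ) : ℝ := ∫ y in ball (0 : E) δ, ‖y‖ ^ a

theorem preimage_sub_ball (x : E) (δ : ℝ) : (fun y => x - y) ⁻¹' ball (0 : E) δ = ball x δ := by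
  ext y
  simp [dist_eq_norm, norm_sub_rev]

theorem integrableOn_rz_shift (hn : 1 ≤ Module.finrank ℝ E) {a : ℝ} (ha : -(Module.finrank ℝ E : ℝ) < a)
    (x : E) (δ : ℝ) : IntegrableOn (fun y : E => ‖x - y‖ ^ a) (ball x δ) := by
  have h := integrableOn_rz hn ha δ
  have hp := Measure.measurePreserving_sub_left (volume : Measure E) x
  have := (hp.integrableOn_comp_preimage (MeasurableEquiv.measurableEmbedding
    (MeasurableEquiv.subLeft x)) (f := fun y : E => ‖y‖ ^ a) (s := ball 0 δ)).mpr h
  rw [preimage_sub_ball] at this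
  exact this

theorem integral_rz_shift (a : ℝ) (x : E) (δ : ℝ) :
    ∫ y in ball x δ, ‖x - y‖ ^ a = rz E a δ := by
  have hp := Measure.measurePreserving_sub_left (volume : Measure E) x
  have := hp.setIntegral_preimage_emb (MeasurableEquiv.measurableEmbedding
    (MeasurableEquiv.subLeft x)) (fun y : E => ‖y‖ ^ a) (ball 0 δ)
  rw [preimage_sub_ball] at this
  exact this

theorem measurable_rz (x : E) (a : ℝ) : Measurable fun y : E => ‖x - y‖ ^ a := by fun_prop

/-- the Riesz kernel is integrable on sets of finite measure -/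
theorem integrableOn_kernel (hn : 1 ≤ Module.finrank ℝ E) {a : ℝ} (ha : -(Module.finrank ℝ E : ℝ) < a)
    (ha0 : a ≤ 0) {A : Set E} (hA : MeasurableSet A) (hfin : volume A ≠ ⊤) (x : E) :
    IntegrableOn (fun y : E => ‖x - y‖ ^ a) A := by
  have h1 : IntegrableOn (fun y : E => ‖x - y‖ ^ a) (A ∩ ball x 1) :=
    (integrableOn_rz_shift hn ha x 1).mono_set inter_subset_right
  have h2 : IntegrableOn (fun y : E => ‖x - y‖ ^ a) (A \ ball x 1) := by
    refine Measure.integrableOn_of_bounded (M := 1) ?_ (measurable_rz x a).aestronglyMeasurable ?_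
    · exact ne_top_of_le_ne_top hfin (measure_mono sdiff_subset)
    · filter_upwards [ae_restrict_mem (hA.diff measurableSet_ball)] with y hy
      rw [Real.norm_of_nonneg (by positivity)]
      have h3 : 1 ≤ ‖x - y‖ := by
        have := hy.2
        simp only [mem_ball, not_lt, dist_eq_norm] at this
        rwa [norm_sub_rev]
      exact Real.rpow_le_one_of_one_le_of_nonpos h3 ha0
  have := h1.union h2
  rwa [inter_union_sdiff] at this

/-- uniform bound -/
theorem integral_kernel_le (hn : 1 ≤ Module.finrank ℝ E) {a : ℝ} (ha : -(Module.finrank ℝ E : ℝ) < a)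
    (ha0 : a ≤ 0) {A : Set E} (hA : MeasurableSet A) (hfin : volume A ≠ ⊤) (x : E) :
    ∫ y in A, ‖x - y‖ ^ a ≤ rz E a 1 + (volume : Measure E).real A := by
  have hI := integrableOn_kernel hn ha ha0 hA hfin x
  have hnn : ∀ y : E, 0 ≤ ‖x - y‖ ^ a := fun y => by positivity
  rw [← integral_inter_add_sdiff (s := A) (t := ball x 1) measurableSet_ball hI]
  apply add_le_add
  · rw [← integral_rz_shift a x 1]
    apply setIntegral_mono_set (integrableOn_rz_shift hn ha x 1)
    · exact Filter.Eventually.of_forall fun y => hnn y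
    · exact (inter_subset_right : A ∩ ball x 1 ⊆ ball x 1).eventuallyLE
  · have hd : volume (A \ ball x 1) ≠ ⊤ := ne_top_of_le_ne_top hfin (measure_mono sdiff_subset)
    calc ∫ y in A \ ball x 1, ‖x - y‖ ^ a ≤ ∫ y in A \ ball x 1, (1 : ℝ) := by
          apply setIntegral_mono_on (hI.mono_set sdiff_subset)
            (integrableOn_const hd) (hA.diff measurableSet_ball)
          intro y hy
          have h3 : 1 ≤ ‖x - y‖ := by
            have := hy.2
            simp only [mem_ball, not_lt, dist_eq_norm] at this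
            rwa [norm_sub_rev]
          exact Real.rpow_le_one_of_one_le_of_nonpos h3 ha0
      _ = (volume : Measure E).real (A \ ball x 1) := by simp
      _ ≤ _ := measureReal_mono sdiff_subset hfin

theorem rz_tendsto (hn : 1 ≤ Module.finrank ℝ E) {a : ℝ} (ha : -(Module.finrank ℝ E : ℝ) < a) :
    Tendsto (fun k : ℕ => rz E a (1 / ((k : ℝ) + 1))) atTop (𝓝 0) := by
  have hnt : Nontrivial E := Module.nontrivial_of_finrank_pos (R := ℝ) (by omega)
  have h := tendsto_setIntegral_of_antitone (μ := (volume : Measure E)) (f := fun y : E => ‖y‖ ^ a)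
    (s := fun k : ℕ => ball (0 : E) (1 / ((k : ℝ) + 1))) (fun k => measurableSet_ball)
    (by
      intro i j hij
      apply ball_subset_ball
      apply one_div_le_one_div_of_le
      · positivity
      · have : (i : ℝ) ≤ j := by exact_mod_cast hij
        linarith) ⟨0, integrableOn_rz hn ha _⟩
  have he : (⋂ k : ℕ, ball (0 : E) (1 / ((k : ℝ) + 1))) = {0} := by
    ext y
    simp only [mem_iInter, mem_ball_zero_iff, mem_singleton_iff]
    constructor
    · intro hy
      by_contra h0
      have hpos : 0 < ‖y‖ := norm_pos_iff.mpr h0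
      obtain ⟨k, hk⟩ := exists_nat_one_div_lt hpos
      exact absurd (hy k) (by linarith)
    · rintro rfl k
      rw [norm_zero]; positivity
  rw [he] at h
  have hz : ∫ y in ({0} : Set E), ‖y‖ ^ a = 0 := by
    apply setIntegral_measure_zero
    exact measure_singleton 0
  rw [hz] at h
  exact h

/-- weakly singular integrals are continuous -/
theorem continuous_weak (hn : 1 ≤ Module.finrank ℝ E) {a : ℝ} (ha : -(Module.finrank ℝ E : ℝ) < a)
    (ha0 : a ≤ 0) {A : Set E} (hA : MeasurableSet A) (hfin : volume A ≠ ⊤)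
    {K : E → E → ℝ} (hKc : ∀ y, ContinuousOn (fun z => K z y) {y}ᶜ)
    (hKm : ∀ z, Measurable (K z)) {C : E → ℝ} (hC : Continuous C)
    (hb : ∀ z y, |K z y| ≤ C z * ‖z - y‖ ^ a) :
    Continuous fun z => ∫ y in A, K z y := by
  have hKi : ∀ z, IntegrableOn (K z) A := by
    intro z
    refine Integrable.mono' ((integrableOn_kernel hn ha ha0 hA hfin z).const_mul (C z))
      (hKm z).aestronglyMeasurable ?_
    exact Filter.Eventually.of_forall fun y => hb z y
  -- cut-off
  set χ : ℝ → ℝ → ℝ := fun ε s => min 1 (max 0 (2 * s / ε - 1)) with hχ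
  have hχc : ∀ ε, Continuous (χ ε) := fun ε => by rw [hχ]; fun_prop
  have hχ0 : ∀ ε s, 0 ≤ χ ε s := fun ε s => le_min zero_le_one (le_max_left _ _)
  have hχ1 : ∀ ε s, χ ε s ≤ 1 := fun ε s => min_le_left _ _
  have hχs : ∀ ε s, 0 < ε → s ≤ ε / 2 → χ ε s = 0 := by
    intro ε s hε hs
    have h1 : 2 * s / ε - 1 ≤ 0 := by
      rw [sub_nonpos, div_le_one hε]; linarith
    rw [hχ]
    simp only
    rw [max_eq_left h1]
    simp
  have hχl : ∀ ε s, 0 < ε → ε ≤ s → χ ε s = 1 := by
    intro ε s hε hs
    have h1 : 1 ≤ 2 * s / ε - 1 := by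
      rw [le_sub_iff_add_le, le_div_iff₀ hε]; linarith
    rw [hχ]
    simp only
    rw [max_eq_right (by linarith), min_eq_left h1]
  have hcont : ∀ ε, 0 < ε → Continuous fun z => ∫ y in A, χ ε ‖z - y‖ * K z y := by
    intro ε hε
    rw [continuous_iff_continuousAt]
    intro z0
    obtain ⟨B, hB⟩ : ∃ B, ∀ᶠ z in 𝓝 z0, C z ≤ B := by
      refine ⟨C z0 + 1, ?_⟩
      exact (hC.tendsto z0).eventually (eventually_le_nhds (by linarith))
    have hC0 : ∀ z, 0 ≤ C z * (ε / 2) ^ a := by
      intro z
      by_cases hE : ∃ y : E, y ≠ z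
      · obtain ⟨y, hy⟩ := hE
        have h1 := (abs_nonneg _).trans (hb z y)
        have h2 : 0 < ‖z - y‖ ^ a := Real.rpow_pos_of_pos (norm_pos_iff.mpr (sub_ne_zero.mpr hy.symm)) _
        have h3 : 0 ≤ C z := nonneg_of_mul_nonneg_left h1 h2
        positivity
      · exfalso
        push Not at hE
        have hnt : Nontrivial E := Module.nontrivial_of_finrank_pos (R := ℝ) (by omega)
        obtain ⟨y, hy⟩ := exists_ne z
        exact hy (hE y)
    apply continuousAt_of_dominated (bound := fun _ => |B| * (ε / 2) ^ a)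
    · refine Filter.Eventually.of_forall fun z => ?_
      exact (((hχc ε).measurable.comp (by fun_prop)).mul (hKm z)).aestronglyMeasurable
    · filter_upwards [hB] with z hz
      refine Filter.Eventually.of_forall fun y => ?_
      rw [Real.norm_eq_abs, abs_mul, abs_of_nonneg (hχ0 _ _)]
      by_cases hs : ‖z - y‖ ≤ ε / 2
      · rw [hχs _ _ hε hs, zero_mul]
        positivity
      · have hs' : ε / 2 < ‖z - y‖ := not_le.mp hs
        have h4 : ‖z - y‖ ^ a ≤ (ε / 2) ^ a :=
          Real.rpow_le_rpow_of_nonpos (by positivity) hs'.le ha0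
        calc χ ε ‖z - y‖ * |K z y| ≤ 1 * |K z y| := by gcongr; exact hχ1 _ _
          _ ≤ C z * ‖z - y‖ ^ a := by rw [one_mul]; exact hb z y
          _ ≤ |B| * ‖z - y‖ ^ a := by
              gcongr
              exact hz.trans (le_abs_self B)
          _ ≤ |B| * (ε / 2) ^ a := by gcongr
    · exact (integrableOn_const hfin)
    · refine Filter.Eventually.of_forall fun y => ?_
      by_cases hzy : z0 = y
      · have : (fun z => χ ε ‖z - y‖ * K z y) =ᶠ[𝓝 z0] fun _ => 0 := by
          have : ∀ᶠ z in 𝓝 z0, ‖z - y‖ ≤ ε / 2 := by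
            have h5 : Tendsto (fun z => ‖z - y‖) (𝓝 z0) (𝓝 ‖z0 - y‖) := by
              exact (by fun_prop : Continuous fun z : E => ‖z - y‖).tendsto z0
            rw [hzy, sub_self, norm_zero] at h5
            rw [hzy]
            exact h5.eventually (eventually_le_nhds (by positivity))
          filter_upwards [this] with z hz
          rw [hχs _ _ hε hz, zero_mul]
        exact this.continuousAt
      · apply ContinuousAt.mul
        · exact ((hχc ε).comp (by fun_prop)).continuousAt
        · exact (hKc y).continuousAt (isOpen_compl_singleton.mem_nhds hzy)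
  -- uniform approximation
  have hunif : TendstoLocallyUniformly (fun (k : ℕ) z => ∫ y in A, χ (1 / ((k : ℝ) + 1)) ‖z - y‖ * K z y)
      (fun z => ∫ y in A, K z y) atTop := by
    rw [Metric.tendstoLocallyUniformly_iff]
    intro ε hε z0
    have hBz : ∀ᶠ z in 𝓝 z0, C z ≤ |C z0| + 1 := by
      exact (hC.tendsto z0).eventually (eventually_le_nhds (by linarith [le_abs_self (C z0)]))
    refine ⟨{z | C z ≤ |C z0| + 1}, hBz, ?_⟩
    have ht : Tendsto (fun k : ℕ => (|C z0| + 1) * rz E a (1 / ((k : ℝ) + 1))) atTop (𝓝 0) := by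
      simpa using (rz_tendsto (E := E) hn ha).const_mul (|C z0| + 1)
    filter_upwards [ht.eventually (gt_mem_nhds hε)] with k hk z hz
    have hδ : (0 : ℝ) < 1 / ((k : ℝ) + 1) := by positivity
    set δ := 1 / ((k : ℝ) + 1) with hδd
    have hi2 : IntegrableOn (fun y => χ δ ‖z - y‖ * K z y) A := by
      refine Integrable.mono' (hKi z).norm
        (((hχc δ).measurable.comp (by fun_prop)).mul (hKm z)).aestronglyMeasurable ?_
      refine Filter.Eventually.of_forall fun y => ?_
      rw [norm_mul, Real.norm_of_nonneg (hχ0 _ _)]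
      exact mul_le_of_le_one_left (norm_nonneg _) (hχ1 _ _)
    rw [dist_eq_norm, ← integral_sub (hKi z) hi2]
    refine lt_of_le_of_lt ?_ hk
    calc ‖∫ y in A, (K z y - χ δ ‖z - y‖ * K z y)‖
        ≤ ∫ y in A, ‖K z y - χ δ ‖z - y‖ * K z y‖ := norm_integral_le_integral_norm _
      _ = ∫ y in A ∩ ball z δ, ‖K z y - χ δ ‖z - y‖ * K z y‖ := by
          rw [← integral_indicator hA, ← integral_indicator (hA.inter measurableSet_ball)]
          congr 1
          ext y
          by_cases hy : y ∈ A
          · by_cases hyb : y ∈ ball z δ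
            · rw [indicator_of_mem hy, indicator_of_mem (show y ∈ A ∩ ball z δ from ⟨hy, hyb⟩)]
            · rw [indicator_of_mem hy, indicator_of_notMem (fun h => hyb h.2)]
              have : δ ≤ ‖z - y‖ := by
                simp only [mem_ball, not_lt, dist_eq_norm] at hyb
                rwa [norm_sub_rev]
              rw [hχl _ _ hδ this]
              simp
          · rw [indicator_of_notMem hy, indicator_of_notMem (fun h => hy h.1)]
      _ ≤ ∫ y in A ∩ ball z δ, (|C z0| + 1) * ‖z - y‖ ^ a := by
          apply setIntegral_mono_on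
          · have h7 : IntegrableOn (fun y => ‖K z y - χ δ ‖z - y‖ * K z y‖) A := ((hKi z).sub hi2).norm
            exact h7.mono_set inter_subset_left
          · exact ((integrableOn_kernel hn ha ha0 hA hfin z).mono_set inter_subset_left).const_mul _
          · exact hA.inter measurableSet_ball
          · intro y _
            have h6 : K z y - χ δ ‖z - y‖ * K z y = (1 - χ δ ‖z - y‖) * K z y := by ring
            rw [h6, norm_mul, Real.norm_of_nonneg (by linarith [hχ1 δ ‖z - y‖])]
            calc (1 - χ δ ‖z - y‖) * ‖K z y‖ ≤ 1 * ‖K z y‖ := by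
                  gcongr
                  linarith [hχ0 δ ‖z - y‖]
              _ ≤ C z * ‖z - y‖ ^ a := by rw [one_mul]; exact hb z y
              _ ≤ (|C z0| + 1) * ‖z - y‖ ^ a := by
                  gcongr
      _ ≤ ∫ y in ball z δ, (|C z0| + 1) * ‖z - y‖ ^ a := by
          apply setIntegral_mono_set ((integrableOn_rz_shift hn ha z δ).const_mul _)
          · exact Filter.Eventually.of_forall fun y => by positivity
          · exact (inter_subset_right : A ∩ ball z δ ⊆ ball z δ).eventuallyLE
      _ = (|C z0| + 1) * rz E a δ := by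
          rw [integral_const_mul, integral_rz_shift]
  exact hunif.continuous (Frequently.of_forall fun k => hcont _ (by positivity))

end Pool.Agent.Helper41.MVC
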