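import Mathlib
import Pool.Agent.Helper41.BallPot
import Pool.Agent.Helper41.MVC.Weak

set_option autoImplicit false
set_option linter.unusedSectionVars false

namespace Pool.Agent.Helper41.MVC

open MeasureTheory Metric Set Filter Topology
open scoped RealInnerProductSpace Pointwise ENNReal

variable {E : Type*} [NormedAddCommGroup E] [InnerProductSpace ℝ E] [FiniteDimensional ℝ E]
  [MeasurableSpace E] [BorelSpace E]

/-- the rotation derivative of the Newton kernel -/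
noncomputable def kr (e f z y : E) : ℝ :=
  -(ex E) * ‖z - y‖ ^ (ex E - 2) * (⟪e, z⟫ * ⟪f, y⟫ - ⟪f, z⟫ * ⟪e, y⟫)

theorem kr_antisymm (e f z y : E) : kr e f y z = - kr e f z y := by
  unfold kr
  rw [norm_sub_rev]
  ring

theorem abs_kr_le (hn : 3 ≤ Module.finrank ℝ E) {e f : E} (he : ‖e‖ = 1) (hf : ‖f‖ = 1) (z y : E) :
    |kr e f z y| ≤ (2 * (-(ex E)) * ‖z‖) * ‖z - y‖ ^ (ex E - 1) := by
  have hex : 0 < -(ex E) := by
    have : (3 : ℝ) ≤ Module.finrank ℝ E := by exact_mod_cast hn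
    unfold ex; linarith
  have hA : |⟪e, z⟫ * ⟪f, y⟫ - ⟪f, z⟫ * ⟪e, y⟫| ≤ 2 * ‖z‖ * ‖z - y‖ := by
    have h1 : ⟪e, z⟫ * ⟪f, y⟫ - ⟪f, z⟫ * ⟪e, y⟫ = ⟪e, z⟫ * ⟪f, y - z⟫ - ⟪f, z⟫ * ⟪e, y - z⟫ := by
      rw [inner_sub_right, inner_sub_right]; ring
    rw [h1]
    have a1 : |⟪e, z⟫| ≤ ‖z‖ := by
      have := abs_real_inner_le_norm e z; rwa [he, one_mul] at this
    have a2 : |⟪f, z⟫| ≤ ‖z‖ := by
      have := abs_real_inner_le_norm f z; rwa [hf, one_mul] at this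
    have a3 : |⟪e, y - z⟫| ≤ ‖z - y‖ := by
      have := abs_real_inner_le_norm e (y - z); rwa [he, one_mul, norm_sub_rev] at this
    have a4 : |⟪f, y - z⟫| ≤ ‖z - y‖ := by
      have := abs_real_inner_le_norm f (y - z); rwa [hf, one_mul, norm_sub_rev] at this
    calc |⟪e, z⟫ * ⟪f, y - z⟫ - ⟪f, z⟫ * ⟪e, y - z⟫|
        ≤ |⟪e, z⟫ * ⟪f, y - z⟫| + |⟪f, z⟫ * ⟪e, y - z⟫| := abs_sub _ _
      _ = |⟪e, z⟫| * |⟪f, y - z⟫| + |⟪f, z⟫| * |⟪e, y - z⟫| := by rw [abs_mul, abs_mul]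
      _ ≤ ‖z‖ * ‖z - y‖ + ‖z‖ * ‖z - y‖ := by gcongr
      _ = 2 * ‖z‖ * ‖z - y‖ := by ring
  unfold kr
  rw [abs_mul, abs_mul, abs_of_pos hex, abs_of_nonneg (by positivity : 0 ≤ ‖z - y‖ ^ (ex E - 2))]
  by_cases hzy : z = y
  · subst hzy
    have : ⟪e, z⟫ * ⟪f, z⟫ - ⟪f, z⟫ * ⟪e, z⟫ = 0 := by ring
    rw [this, abs_zero, mul_zero]
    positivity
  · have hpos : 0 < ‖z - y‖ := norm_pos_iff.mpr (sub_ne_zero.mpr hzy)
    have hpw : ‖z - y‖ ^ (ex E - 1) = ‖z - y‖ ^ (ex E - 2) * ‖z - y‖ := by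
      rw [← Real.rpow_add_one hpos.ne']
      congr 1
      ring
    calc -(ex E) * ‖z - y‖ ^ (ex E - 2) * |⟪e, z⟫ * ⟪f, y⟫ - ⟪f, z⟫ * ⟪e, y⟫|
        ≤ -(ex E) * ‖z - y‖ ^ (ex E - 2) * (2 * ‖z‖ * ‖z - y‖) := by gcongr
      _ = _ := by rw [hpw]; ring

theorem measurable_kr (e f z : E) : Measurable (kr e f z) := by
  unfold kr; fun_prop

theorem continuousOn_kr (e f y : E) : ContinuousOn (fun z => kr e f z y) {y}ᶜ := by
  unfold kr
  apply ContinuousOn.mul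
  · apply ContinuousOn.mul continuousOn_const
    apply ContinuousOn.rpow_const (by fun_prop)
    intro z hz
    left
    exact norm_ne_zero_iff.mpr (sub_ne_zero.mpr hz)
  · fun_prop

/-- generator -/
noncomputable def J (e f w : E) : E := -(⟪f, w⟫ • e) + ⟪e, w⟫ • f

theorem hasDerivAt_rot {e f : E} (he : ‖e‖ = 1) (hf : ‖f‖ = 1) (hef : ⟪e, f⟫ = 0) (z : E) (θ : ℝ) :
    HasDerivAt (fun θ => rot he hf hef θ z) (J e f (rot he hf hef θ z)) θ := by
  have h1 : HasDerivAt (fun θ => rotLin e f θ z)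
      (0 + ((-Real.sin θ) * ⟪e, z⟫ - Real.cos θ * ⟪f, z⟫) • e
        + (Real.cos θ * ⟪e, z⟫ + (-Real.sin θ) * ⟪f, z⟫) • f) θ := by
    have hs := Real.hasDerivAt_sin θ
    have hc := Real.hasDerivAt_cos θ
    have e1 : HasDerivAt (fun θ => (Real.cos θ - 1) * ⟪e, z⟫ - Real.sin θ * ⟪f, z⟫)
        ((-Real.sin θ) * ⟪e, z⟫ - Real.cos θ * ⟪f, z⟫) θ :=
      ((hc.sub_const 1).mul_const _).sub (hs.mul_const _)
    have e2 : HasDerivAt (fun θ => Real.sin θ * ⟪e, z⟫ + (Real.cos θ - 1) * ⟪f, z⟫)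
        (Real.cos θ * ⟪e, z⟫ + (-Real.sin θ) * ⟪f, z⟫) θ :=
      (hs.mul_const _).add ((hc.sub_const 1).mul_const _)
    exact ((hasDerivAt_const θ z).add (e1.smul_const e)).add (e2.smul_const f)
  refine h1.congr_deriv ?_
  unfold J
  rw [inner_e_rot he hf hef, inner_f_rot he hf hef]
  rw [zero_add, ← neg_smul]
  congr 2 <;> ring

theorem inner_J {e f : E} (y w : E) : ⟪y, J e f w⟫ = ⟪e, w⟫ * ⟪f, y⟫ - ⟪f, w⟫ * ⟪e, y⟫ := by
  unfold J
  rw [inner_add_right, inner_neg_right, inner_smul_right, inner_smul_right, real_inner_comm e y,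
    real_inner_comm f y]
  ring

theorem hasDerivAt_kernel {e f : E} (he : ‖e‖ = 1) (hf : ‖f‖ = 1) (hef : ⟪e, f⟫ = 0) (z y : E) (θ : ℝ)
    (hy : rot he hf hef θ z ≠ y) :
    HasDerivAt (fun θ => ‖rot he hf hef θ z - y‖ ^ (ex E)) (kr e f (rot he hf hef θ z) y) θ := by
  have hpos : 0 < ‖rot he hf hef θ z - y‖ := norm_pos_iff.mpr (sub_ne_zero.mpr hy)
  have h1 : HasDerivAt (fun θ => rot he hf hef θ z - y) (J e f (rot he hf hef θ z)) θ :=
    (hasDerivAt_rot he hf hef z θ).sub_const y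
  have h2 := h1.norm_sq
  have h3 := h2.rpow_const (p := ex E / 2) (Or.inl (by positivity))
  have e1 : (fun θ => ‖rot he hf hef θ z - y‖ ^ (ex E))
      = fun θ => (‖rot he hf hef θ z - y‖ ^ 2) ^ (ex E / 2) := by
    funext θ
    rw [← Real.rpow_natCast, ← Real.rpow_mul (norm_nonneg _)]
    congr 1
    push_cast; ring
  rw [e1]
  refine h3.congr_deriv ?_
  have e2 : (‖rot he hf hef θ z - y‖ ^ 2) ^ (ex E / 2 - 1) = ‖rot he hf hef θ z - y‖ ^ (ex E - 2) := by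
    rw [← Real.rpow_natCast, ← Real.rpow_mul (norm_nonneg _)]
    congr 1
    push_cast; ring
  rw [e2, inner_sub_left, inner_J, inner_J]
  unfold kr
  ring

theorem rot_zero {e f : E} (he : ‖e‖ = 1) (hf : ‖f‖ = 1) (hef : ⟪e, f⟫ = 0) (z : E) :
    rot he hf hef 0 z = z := by
  rw [rot_apply, rotLin_apply]
  simp

theorem rot_add {e f : E} (he : ‖e‖ = 1) (hf : ‖f‖ = 1) (hef : ⟪e, f⟫ = 0) (s t : ℝ) (z : E) :
    rot he hf hef (s + t) z = rot he hf hef s (rot he hf hef t z) := by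
  have h1 := inner_e_rot he hf hef t z
  have h2 := inner_f_rot he hf hef t z
  rw [rot_apply he hf hef s, rotLin_apply, h1, h2, rot_apply he hf hef (s + t), rotLin_apply,
    rot_apply he hf hef t, rotLin_apply, Real.cos_add, Real.sin_add]
  module

theorem continuous_rot {e f : E} (he : ‖e‖ = 1) (hf : ‖f‖ = 1) (hef : ⟪e, f⟫ = 0) (z : E) :
    Continuous fun θ => rot he hf hef θ z :=
  continuous_iff_continuousAt.mpr fun θ => (hasDerivAt_rot he hf hef z θ).continuousAt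

end Pool.Agent.Helper41.MVC
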