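import Mathlib
import Pool.Agent.Helper41.MVC.Rot

set_option autoImplicit false
set_option linter.unusedSectionVars false

namespace Pool.Agent.Helper41.MVC

open MeasureTheory Metric Set Filter Topology
open scoped RealInnerProductSpace Pointwise ENNReal

variable {E : Type*} [NormedAddCommGroup E] [InnerProductSpace ℝ E] [FiniteDimensional ℝ E]
  [MeasurableSpace E] [BorelSpace E]

/-- Newton potential of a set -/
noncomputable def U (A : Set E) (x : E) : ℝ := ∫ y in A, ‖x - y‖ ^ (ex E)

/-- rotation derivative of the Newton potential of a set -/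
noncomputable def V (e f : E) (A : Set E) (z : E) : ℝ := ∫ y in A, kr e f z y

theorem ex_lt (hn : 3 ≤ Module.finrank ℝ E) : -(Module.finrank ℝ E : ℝ) < ex E ∧
    -(Module.finrank ℝ E : ℝ) < ex E - 1 ∧ ex E ≤ 0 ∧ ex E - 1 ≤ 0 ∧ ex E < 0 := by
  have : (3 : ℝ) ≤ Module.finrank ℝ E := by exact_mod_cast hn
  unfold ex
  refine ⟨?_, ?_, ?_, ?_, ?_⟩ <;> linarith

theorem integrableOn_kr (hn : 3 ≤ Module.finrank ℝ E) {e f : E} (he : ‖e‖ = 1) (hf : ‖f‖ = 1)
    {A : Set E} (hA : MeasurableSet A) (hfin : volume A ≠ ⊤) (z : E) :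
    IntegrableOn (kr e f z) A := by
  refine Integrable.mono' ((integrableOn_kernel (by omega) (ex_lt hn).2.1 (ex_lt hn).2.2.2.1 hA hfin z).const_mul
    (2 * (-(ex E)) * ‖z‖)) (measurable_kr e f z).aestronglyMeasurable ?_
  exact Filter.Eventually.of_forall fun y => abs_kr_le hn he hf z y

theorem continuous_U (hn : 3 ≤ Module.finrank ℝ E) {A : Set E} (hA : MeasurableSet A)
    (hfin : volume A ≠ ⊤) : Continuous (U A) := by
  apply continuous_weak (by omega) (ex_lt hn).1 (ex_lt hn).2.2.1 hA hfin (C := fun _ => 1)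
  · intro y
    apply ContinuousOn.rpow_const (by fun_prop)
    intro z hz
    left
    exact norm_ne_zero_iff.mpr (sub_ne_zero.mpr hz)
  · intro z; fun_prop
  · exact continuous_const
  · intro z y
    rw [one_mul, abs_of_nonneg (by positivity)]

theorem continuous_V (hn : 3 ≤ Module.finrank ℝ E) {e f : E} (he : ‖e‖ = 1) (hf : ‖f‖ = 1)
    {A : Set E} (hA : MeasurableSet A) (hfin : volume A ≠ ⊤) : Continuous (V e f A) := by
  apply continuous_weak (by omega) (ex_lt hn).2.1 (ex_lt hn).2.2.2.1 hA hfin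
    (C := fun z => 2 * (-(ex E)) * ‖z‖)
  · intro y; exact continuousOn_kr e f y
  · intro z; exact measurable_kr e f z
  · fun_prop
  · intro z y; exact abs_kr_le hn he hf z y

theorem integral_abs_kr_le (hn : 3 ≤ Module.finrank ℝ E) {e f : E} (he : ‖e‖ = 1) (hf : ‖f‖ = 1)
    {A : Set E} (hA : MeasurableSet A) (hfin : volume A ≠ ⊤) (z : E) :
    ∫ y in A, ‖kr e f z y‖ ≤ 2 * (-(ex E)) * ‖z‖ * (rz E (ex E - 1) 1 + (volume : Measure E).real A) := by
  have hex : 0 < -(ex E) := by linarith [(ex_lt hn).2.2.2.2]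
  calc ∫ y in A, ‖kr e f z y‖ ≤ ∫ y in A, 2 * (-(ex E)) * ‖z‖ * ‖z - y‖ ^ (ex E - 1) := by
        apply setIntegral_mono_on (integrableOn_kr hn he hf hA hfin z).norm _ hA
        · intro y _; exact abs_kr_le hn he hf z y
        · exact (integrableOn_kernel (by omega) (ex_lt hn).2.1 (ex_lt hn).2.2.2.1 hA hfin z).const_mul _
    _ ≤ _ := by
        rw [integral_const_mul]
        gcongr
        exact integral_kernel_le (by omega) (ex_lt hn).2.1 (ex_lt hn).2.2.2.1 hA hfin z

theorem measurable_kr_path (e f : E) {w : ℝ → E} (hw : Continuous w) :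
    Measurable (Function.uncurry fun (s : ℝ) (y : E) => kr e f (w s) y) := by
  have h1 : Measurable fun p : ℝ × E => w p.1 := hw.measurable.comp measurable_fst
  have h2 : Measurable fun p : ℝ × E => ‖w p.1 - p.2‖ := (h1.sub measurable_snd).norm
  have h3 : Measurable fun p : ℝ × E => ⟪e, w p.1⟫ :=
    (by fun_prop : Continuous fun w : E => ⟪e, w⟫).measurable.comp h1
  have h4 : Measurable fun p : ℝ × E => ⟪f, w p.1⟫ :=
    (by fun_prop : Continuous fun w : E => ⟪f, w⟫).measurable.comp h1
  have h5 : Measurable fun p : ℝ × E => ⟪e, p.2⟫ :=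
    (by fun_prop : Continuous fun w : E => ⟪e, w⟫).measurable.comp measurable_snd
  have h6 : Measurable fun p : ℝ × E => ⟪f, p.2⟫ :=
    (by fun_prop : Continuous fun w : E => ⟪f, w⟫).measurable.comp measurable_snd
  exact ((h2.pow_const (ex E - 2)).const_mul (-(ex E))).mul ((h3.mul h6).sub (h4.mul h5))

theorem integrable_kr_path (hn : 3 ≤ Module.finrank ℝ E) {e f : E} (he : ‖e‖ = 1) (hf : ‖f‖ = 1)
    {A : Set E} (hA : MeasurableSet A) (hfin : volume A ≠ ⊤) {w : ℝ → E} (hw : Continuous w)
    {r : ℝ} (hwr : ∀ s, ‖w s‖ = r) (t : ℝ) :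
    Integrable (Function.uncurry fun (s : ℝ) (y : E) => kr e f (w s) y)
      ((volume.restrict (uIoc 0 t)).prod (volume.restrict A)) := by
  have hm := measurable_kr_path e f hw
  rw [integrable_prod_iff hm.aestronglyMeasurable]
  constructor
  · refine Filter.Eventually.of_forall fun s => ?_
    have h9 : Integrable (kr e f (w s)) (volume.restrict A) := integrableOn_kr hn he hf hA hfin (w s)
    exact h9
  · have hms : AEStronglyMeasurable (fun s => ∫ y in A, ‖kr e f (w s) y‖) volume :=
      (StronglyMeasurable.integral_prod_right' (ν := volume.restrict A)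
        hm.norm.stronglyMeasurable).aestronglyMeasurable
    apply Measure.integrableOn_of_bounded
        (M := 2 * (-(ex E)) * r * (rz E (ex E - 1) 1 + (volume : Measure E).real A)) _ hms
    · refine Filter.Eventually.of_forall fun s => ?_
      rw [Real.norm_of_nonneg (integral_nonneg fun _ => norm_nonneg _)]
      have := integral_abs_kr_le hn he hf hA hfin (w s)
      rwa [hwr] at this
    · rw [uIoc]; exact measure_Ioc_lt_top.ne

theorem U_rot_sub (hn : 3 ≤ Module.finrank ℝ E) {e f : E} (he : ‖e‖ = 1) (hf : ‖f‖ = 1)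
    (hef : ⟪e, f⟫ = 0) {A : Set E} (hA : MeasurableSet A) (hfin : volume A ≠ ⊤) (z : E) (t : ℝ) :
    U A (rot he hf hef t z) - U A z = ∫ s in (0 : ℝ)..t, V e f A (rot he hf hef s z) := by
  have hnt : Nontrivial E := Module.nontrivial_of_finrank_pos (R := ℝ) (by omega)
  have hw := continuous_rot he hf hef z
  have hprod := integrable_kr_path hn he hf hA hfin hw (r := ‖z‖)
    (fun s => LinearIsometryEquiv.norm_map _ _) t
  unfold V
  rw [intervalIntegral_integral_swap hprod]
  unfold U
  rw [← integral_sub (integrableOn_kernel (by omega) (ex_lt hn).1 (ex_lt hn).2.2.1 hA hfin _)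
    (integrableOn_kernel (by omega) (ex_lt hn).1 (ex_lt hn).2.2.1 hA hfin _)]
  apply integral_congr_ae
  have hae : ∀ᵐ y ∂(volume.restrict A), ‖y‖ ≠ ‖z‖ := by
    apply ae_restrict_of_ae
    rw [ae_iff]
    have : {y : E | ¬ ‖y‖ ≠ ‖z‖} = sphere 0 ‖z‖ := by ext y; simp
    rw [this]
    exact Measure.addHaar_sphere _ _ _
  filter_upwards [hae] with y hy
  have hne : ∀ s, rot he hf hef s z ≠ y := by
    intro s hs
    apply hy
    rw [← hs, LinearIsometryEquiv.norm_map]
  have h8 := intervalIntegral.integral_eq_sub_of_hasDerivAt (a := 0) (b := t)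
    (fun s _ => hasDerivAt_kernel he hf hef z y s (hne s))
    (by
      apply Continuous.intervalIntegrable
      have h9 : Continuous ((fun w => kr e f w y) ∘ fun s => rot he hf hef s z) := by
        rw [continuous_iff_continuousAt]
        intro s
        have := (continuousOn_kr e f y).continuousAt (isOpen_compl_singleton.mem_nhds (hne s))
        exact ContinuousAt.comp (f := fun s => rot he hf hef s z) (g := fun w => kr e f w y) this hw.continuousAt
      exact h9)
  rw [h8, rot_zero]

theorem hasDerivAt_U_rot (hn : 3 ≤ Module.finrank ℝ E) {e f : E} (he : ‖e‖ = 1) (hf : ‖f‖ = 1)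
    (hef : ⟪e, f⟫ = 0) {A : Set E} (hA : MeasurableSet A) (hfin : volume A ≠ ⊤) (z : E) (t : ℝ) :
    HasDerivAt (fun t => U A (rot he hf hef t z)) (V e f A (rot he hf hef t z)) t := by
  have hc : Continuous fun s => V e f A (rot he hf hef s z) :=
    (continuous_V hn he hf hA hfin).comp (continuous_rot he hf hef z)
  have h1 : HasDerivAt (fun t => U A z + ∫ s in (0 : ℝ)..t, V e f A (rot he hf hef s z))
      (V e f A (rot he hf hef t z)) t := by
    have := (hc.integral_hasStrictDerivAt 0 t).hasDerivAt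
    exact this.const_add _
  refine h1.congr_of_eventuallyEq (Filter.Eventually.of_forall fun t => ?_)
  have := U_rot_sub hn he hf hef hA hfin z t
  simp only
  linarith

theorem preimage_add_ball (x : E) (ρ : ℝ) : (fun y => y - x) ⁻¹' ball (0 : E) ρ = ball x ρ := by
  ext y
  simp [dist_eq_norm]

theorem U_ball_shift (x y : E) (ρ : ℝ) : U (ball x ρ) y = U (ball 0 ρ) (y - x) := by
  unfold U
  have hp := measurePreserving_sub_right (volume : Measure E) x
  have := hp.setIntegral_preimage_emb (MeasurableEquiv.measurableEmbedding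
    (MeasurableEquiv.subRight x)) (fun z : E => ‖y - x - z‖ ^ (ex E)) (ball 0 ρ)
  rw [preimage_add_ball] at this
  rw [← this]
  apply integral_congr_ae
  refine Filter.Eventually.of_forall fun z => ?_
  simp only
  congr 2
  abel

theorem volume_ball_pos' {ρ : ℝ} (hρ : 0 < ρ) (x : E) :
    0 < (volume : Measure E).real (ball x ρ) :=
  ENNReal.toReal_pos (measure_ball_pos _ _ hρ).ne' measure_ball_lt_top.ne

theorem volume_ball_shift (x : E) (ρ : ℝ) :
    (volume : Measure E).real (ball x ρ) = (volume : Measure E).real (ball 0 ρ) := by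
  rw [Measure.real, Measure.real, Measure.addHaar_ball_center]

theorem U_ball_outer (hn : 3 ≤ Module.finrank ℝ E) {ρ : ℝ} (hρ : 0 ≤ ρ) {x y : E} (hxy : ρ ≤ ‖y - x‖) :
    U (ball x ρ) y = (volume : Measure E).real (ball x ρ) * ‖y - x‖ ^ (ex E) := by
  rw [U_ball_shift]
  unfold U
  rw [integral_ball_outer hn hρ hxy, sph_univ, volume_ball_shift x ρ, volume_ball hn hρ]
  have : (0 : ℝ) < Module.finrank ℝ E := by exact_mod_cast (by omega : 0 < Module.finrank ℝ E)
  field_simp

theorem U_ball_inner (hn : 3 ≤ Module.finrank ℝ E) {ρ : ℝ} (hρ : 0 < ρ) {x y : E} (hxy : ‖y - x‖ ≤ ρ) :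
    U (ball x ρ) y = (volume : Measure E).real (ball x ρ) *
      ((Module.finrank ℝ E * ρ ^ 2 - (Module.finrank ℝ E - 2) * ‖y - x‖ ^ 2) / (2 * ρ ^ Module.finrank ℝ E)) := by
  rw [U_ball_shift]
  unfold U
  rw [integral_ball_inner hn hρ.le hxy, sph_univ, volume_ball_shift x ρ, volume_ball hn hρ.le]
  have : (0 : ℝ) < Module.finrank ℝ E := by exact_mod_cast (by omega : 0 < Module.finrank ℝ E)
  field_simp
  ring

theorem V_ball_outer (hn : 3 ≤ Module.finrank ℝ E) {e f : E} (he : ‖e‖ = 1) (hf : ‖f‖ = 1)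
    (hef : ⟪e, f⟫ = 0) {ρ : ℝ} (hρ : 0 ≤ ρ) {x y : E} (hxy : ρ < ‖y - x‖) :
    V e f (ball x ρ) y = (volume : Measure E).real (ball x ρ) * kr e f y x := by
  have h1 := hasDerivAt_U_rot hn he hf hef (A := ball x ρ) measurableSet_ball measure_ball_lt_top.ne y 0
  have hne : rot he hf hef 0 y ≠ x := by
    rw [rot_zero]
    rintro rfl
    rw [sub_self, norm_zero] at hxy
    linarith
  have h2 := (hasDerivAt_kernel he hf hef y x 0 hne).const_mul ((volume : Measure E).real (ball x ρ))
  have h3 : (fun t => U (ball x ρ) (rot he hf hef t y)) =ᶠ[𝓝 0]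
      fun t => (volume : Measure E).real (ball x ρ) * ‖rot he hf hef t y - x‖ ^ (ex E) := by
    have h4 : ∀ᶠ t in 𝓝 (0 : ℝ), ρ < ‖rot he hf hef t y - x‖ := by
      have h5 : Continuous fun t => ‖rot he hf hef t y - x‖ :=
        ((continuous_rot he hf hef y).sub continuous_const).norm
      have h6 := h5.tendsto 0
      rw [rot_zero] at h6
      exact h6.eventually (lt_mem_nhds hxy)
    filter_upwards [h4] with t ht
    exact U_ball_outer hn hρ ht.le
  have h7 := h1.congr_of_eventuallyEq h3.symm
  have h8 := h7.unique h2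
  rwa [rot_zero] at h8

theorem V_ball_center (e f x : E) (ρ : ℝ) :
    V e f (ball x ρ) x = 0 := by
  unfold V
  have hp := Measure.measurePreserving_sub_left (volume : Measure E) (x + x)
  have h1 := hp.setIntegral_preimage_emb (MeasurableEquiv.measurableEmbedding
    (MeasurableEquiv.subLeft (x + x))) (kr e f x) (ball x ρ)
  have h2 : (fun y => x + x - y) ⁻¹' ball x ρ = ball x ρ := by
    ext y
    simp only [mem_preimage, mem_ball, dist_eq_norm]
    rw [show x + x - y - x = -(y - x) by abel, norm_neg]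
  rw [h2] at h1
  have h3 : ∀ y, kr e f x (x + x - y) = - kr e f x y := by
    intro y
    unfold kr
    rw [show x - (x + x - y) = -(x - y) by abel, norm_neg]
    simp only [inner_sub_right, inner_add_right]
    ring
  simp_rw [h3] at h1
  rw [integral_neg] at h1
  linarith

end Pool.Agent.Helper41.MVC
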