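import Mathlib
import Pool.Agent.Helper41.MVC.Pot

set_option autoImplicit false
set_option linter.unusedSectionVars false

namespace Pool.Agent.Helper41.MVC

open MeasureTheory Metric Set Filter Topology
open scoped RealInnerProductSpace Pointwise ENNReal

variable {E : Type*} [NormedAddCommGroup E] [InnerProductSpace ℝ E] [FiniteDimensional ℝ E]
  [MeasurableSpace E] [BorelSpace E]

theorem measurable_kr_uncurry (e f : E) : Measurable (Function.uncurry fun (z y : E) => kr e f z y) := by
  have h2 : Measurable fun p : E × E => ‖p.1 - p.2‖ := (measurable_fst.sub measurable_snd).norm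
  have h3 : Measurable fun p : E × E => ⟪e, p.1⟫ :=
    (by fun_prop : Continuous fun w : E => ⟪e, w⟫).measurable.comp measurable_fst
  have h4 : Measurable fun p : E × E => ⟪f, p.1⟫ :=
    (by fun_prop : Continuous fun w : E => ⟪f, w⟫).measurable.comp measurable_fst
  have h5 : Measurable fun p : E × E => ⟪e, p.2⟫ :=
    (by fun_prop : Continuous fun w : E => ⟪e, w⟫).measurable.comp measurable_snd
  have h6 : Measurable fun p : E × E => ⟪f, p.2⟫ :=
    (by fun_prop : Continuous fun w : E => ⟪f, w⟫).measurable.comp measurable_snd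
  exact ((h2.pow_const (ex E - 2)).const_mul (-(ex E))).mul ((h3.mul h6).sub (h4.mul h5))

theorem integrable_kr_prod (hn : 3 ≤ Module.finrank ℝ E) {e f : E} (he : ‖e‖ = 1) (hf : ‖f‖ = 1)
    {A B : Set E} (hA : MeasurableSet A) (hfin : volume A ≠ ⊤) (hB : MeasurableSet B)
    (hBfin : volume B ≠ ⊤) {R : ℝ} (hBR : ∀ z ∈ B, ‖z‖ ≤ R) :
    Integrable (Function.uncurry fun (z y : E) => kr e f z y)
      ((volume.restrict B).prod (volume.restrict A)) := by
  have hm := measurable_kr_uncurry e f
  have hex : 0 < -(ex E) := by linarith [(ex_lt hn).2.2.2.2]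
  have hrz : 0 ≤ rz E (ex E - 1) 1 := by
    unfold rz
    exact integral_nonneg fun y => by positivity
  rw [integrable_prod_iff hm.aestronglyMeasurable]
  constructor
  · refine Filter.Eventually.of_forall fun z => ?_
    have h9 : Integrable (kr e f z) (volume.restrict A) := integrableOn_kr hn he hf hA hfin z
    exact h9
  · have hms : AEStronglyMeasurable (fun z => ∫ y in A, ‖kr e f z y‖) volume :=
      (StronglyMeasurable.integral_prod_right' (ν := volume.restrict A)
        hm.norm.stronglyMeasurable).aestronglyMeasurable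
    apply Measure.integrableOn_of_bounded
        (M := 2 * (-(ex E)) * R * (rz E (ex E - 1) 1 + (volume : Measure E).real A)) hBfin hms
    · filter_upwards [ae_restrict_mem hB] with z hz
      rw [Real.norm_of_nonneg (integral_nonneg fun _ => norm_nonneg _)]
      refine (integral_abs_kr_le hn he hf hA hfin z).trans ?_
      have := hBR z hz
      gcongr

theorem V_split (hn : 3 ≤ Module.finrank ℝ E) {e f : E} (he : ‖e‖ = 1) (hf : ‖f‖ = 1)
    {A : Set E} (hA : MeasurableSet A) (hfin : volume A ≠ ⊤) {x : E} {ρ : ℝ}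
    (hnull : volume (ball x ρ \ A) = 0) (z : E) :
    V e f A z = V e f (ball x ρ) z + V e f (A \ ball x ρ) z := by
  unfold V
  rw [← integral_inter_add_sdiff (s := A) (t := ball x ρ) measurableSet_ball
    (integrableOn_kr hn he hf hA hfin z)]
  congr 1
  apply setIntegral_congr_set
  apply Filter.EventuallyLE.antisymm
  · exact (inter_subset_right : A ∩ ball x ρ ⊆ ball x ρ).eventuallyLE
  · rw [ae_le_set]
    have h1 : ball x ρ \ (A ∩ ball x ρ) = ball x ρ \ A := by
      ext y
      simp only [Set.mem_sdiff, mem_inter_iff]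
      tauto
    rw [h1]
    exact hnull

theorem V_mean (hn : 3 ≤ Module.finrank ℝ E) {e f : E} (he : ‖e‖ = 1) (hf : ‖f‖ = 1)
    (hef : ⟪e, f⟫ = 0) {A : Set E} (hA : MeasurableSet A) (hfin : volume A ≠ ⊤) {x : E} {ρ : ℝ}
    (hρ : 0 ≤ ρ) (hnull : volume (ball x ρ \ A) = 0) :
    ∫ z in ball x ρ, V e f A z = (volume : Measure E).real (ball x ρ) * V e f A x := by
  have hnt : Nontrivial E := Module.nontrivial_of_finrank_pos (R := ℝ) (by omega)
  have hBm : MeasurableSet (ball x ρ) := measurableSet_ball
  have hBf : volume (ball x ρ) ≠ ⊤ := measure_ball_lt_top.ne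
  have hBR : ∀ z ∈ ball x ρ, ‖z‖ ≤ ‖x‖ + ρ := by
    intro z hz
    rw [mem_ball, dist_eq_norm] at hz
    calc ‖z‖ = ‖x + (z - x)‖ := by congr 1; abel
      _ ≤ ‖x‖ + ‖z - x‖ := norm_add_le _ _
      _ ≤ ‖x‖ + ρ := by linarith
  have hAB : MeasurableSet (A \ ball x ρ) := hA.diff hBm
  have hABf : volume (A \ ball x ρ) ≠ ⊤ := ne_top_of_le_ne_top hfin (measure_mono sdiff_subset)
  simp_rw [V_split hn he hf hA hfin hnull]
  rw [V_ball_center, zero_add]
  have i1 : IntegrableOn (V e f (ball x ρ)) (ball x ρ) :=
    ((continuous_V hn he hf hBm hBf).locallyIntegrable.integrableOn_isCompact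
      (isCompact_closedBall x ρ)).mono_set ball_subset_closedBall
  have i2 : IntegrableOn (V e f (A \ ball x ρ)) (ball x ρ) :=
    ((continuous_V hn he hf hAB hABf).locallyIntegrable.integrableOn_isCompact
      (isCompact_closedBall x ρ)).mono_set ball_subset_closedBall
  rw [integral_add i1 i2]
  have e1 : ∫ z in ball x ρ, V e f (ball x ρ) z = 0 := by
    have hsw := integral_integral_swap (integrable_kr_prod hn he hf hBm hBf hBm hBf hBR)
    have h3 : ∫ y in ball x ρ, ∫ z in ball x ρ, kr e f z y = - ∫ y in ball x ρ, V e f (ball x ρ) y := by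
      rw [← integral_neg]
      congr 1
      funext y
      unfold V
      rw [← integral_neg]
      congr 1
      funext z
      exact kr_antisymm e f y z
    have h4 : ∫ z in ball x ρ, V e f (ball x ρ) z = ∫ z in ball x ρ, ∫ y in ball x ρ, kr e f z y := rfl
    linarith
  have e2 : ∫ z in ball x ρ, V e f (A \ ball x ρ) z
      = (volume : Measure E).real (ball x ρ) * V e f (A \ ball x ρ) x := by
    have hsw := integral_integral_swap (integrable_kr_prod hn he hf hAB hABf hBm hBf hBR)
    have h4 : ∫ z in ball x ρ, V e f (A \ ball x ρ) z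
        = ∫ z in ball x ρ, ∫ y in A \ ball x ρ, kr e f z y := rfl
    rw [h4, hsw]
    have h5 : (volume : Measure E).real (ball x ρ) * V e f (A \ ball x ρ) x
        = ∫ y in A \ ball x ρ, (volume : Measure E).real (ball x ρ) * kr e f x y := by
      rw [integral_const_mul]; rfl
    rw [h5]
    apply integral_congr_ae
    have hae : ∀ᵐ y ∂(volume.restrict (A \ ball x ρ)), ‖y - x‖ ≠ ρ := by
      apply ae_restrict_of_ae
      rw [ae_iff]
      have : {y : E | ¬ ‖y - x‖ ≠ ρ} = sphere x ρ := by ext y; simp
      rw [this]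
      exact Measure.addHaar_sphere _ _ _
    filter_upwards [hae, ae_restrict_mem hAB] with y hy hyA
    have h6 : ρ < ‖y - x‖ := by
      have h7 := hyA.2
      simp only [mem_ball, not_lt, dist_eq_norm] at h7
      exact lt_of_le_of_ne h7 (Ne.symm hy)
    have h8 : ∫ z in ball x ρ, kr e f z y = - V e f (ball x ρ) y := by
      unfold V
      rw [← integral_neg]
      congr 1
      funext z
      exact kr_antisymm e f y z
    rw [h8, V_ball_outer hn he hf hef hρ h6, kr_antisymm e f x y]
    ring
  rw [e1, e2, zero_add]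

/-- a continuous function vanishing at infinity with a local mean value property where it does not
vanish is zero -/
theorem zero_of_local_mean [Nontrivial E] {g : E → ℝ} (hg : Continuous g)
    (hinf : Tendsto g (cocompact E) (𝓝 0))
    (hm : ∀ x, g x ≠ 0 → ∃ ρ, 0 < ρ ∧ ∫ z in ball x ρ, g z = (volume : Measure E).real (ball x ρ) * g x) :
    ∀ x, g x ≤ 0 := by
  by_contra hcon
  push Not at hcon
  obtain ⟨x0, hx0⟩ := hcon
  -- the maximum is attained
  have hmax : ∃ x1, ∀ y, g y ≤ g x1 := by
    have h1 : ∀ᶠ y in cocompact E, g y ≤ g x0 := hinf.eventually (eventually_le_nhds hx0)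
    exact hg.exists_forall_ge' x0 h1
  obtain ⟨x1, hx1⟩ := hmax
  have hpos : 0 < g x1 := lt_of_lt_of_le hx0 (hx1 x0)
  set M := {x | g x = g x1} with hM
  have hMc : IsCompact M := by
    have hcl : IsClosed M := isClosed_eq hg continuous_const
    have h2 : ∀ᶠ y in cocompact E, g y < g x1 := hinf.eventually (eventually_lt_nhds hpos)
    rw [Filter.Eventually, mem_cocompact] at h2
    obtain ⟨K, hK, hKs⟩ := h2
    refine hK.of_isClosed_subset hcl fun y hy => ?_
    by_contra hyK
    have := hKs hyK
    simp only [mem_ofPred_eq] at this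
    rw [hM, mem_ofPred_eq] at hy
    linarith
  obtain ⟨x2, hx2, hx2max⟩ := hMc.exists_isMaxOn ⟨x1, rfl⟩ continuous_norm.continuousOn
  have hgx2 : g x2 = g x1 := hx2
  obtain ⟨ρ, hρ, hρm⟩ := hm x2 (by rw [hgx2]; exact hpos.ne')
  -- g is constant on the ball
  have hconst : ∀ z ∈ ball x2 ρ, g z = g x1 := by
    by_contra hne
    push Not at hne
    obtain ⟨z, hz, hzg⟩ := hne
    have hint : IntegrableOn g (ball x2 ρ) :=
      (hg.locallyIntegrable.integrableOn_isCompact (isCompact_closedBall x2 ρ)).mono_set
        ball_subset_closedBall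
    have hcst : IntegrableOn (fun _ : E => g x1) (ball x2 ρ) := integrableOn_const measure_ball_lt_top.ne
    have hd : IntegrableOn (fun z => g x1 - g z) (ball x2 ρ) := hcst.sub hint
    have hzero : ∫ z in ball x2 ρ, (g x1 - g z) = 0 := by
      rw [integral_sub hcst hint, hρm, hgx2]
      simp
    have hposint : 0 < ∫ z in ball x2 ρ, (g x1 - g z) := by
      rw [setIntegral_pos_iff_support_of_nonneg_ae]
      · have hopen : IsOpen (Function.support (fun z => g x1 - g z) ∩ ball x2 ρ) :=
          (Continuous.isOpen_support (by fun_prop)).inter isOpen_ball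
        apply hopen.measure_pos volume
        refine ⟨z, ?_, hz⟩
        rw [Function.mem_support]
        have := lt_of_le_of_ne (hx1 z) hzg
        linarith
      · exact Filter.Eventually.of_forall fun z => sub_nonneg.mpr (hx1 z)
      · exact hd
    linarith
  -- a point of the ball with larger norm
  obtain ⟨w, hw, hwn⟩ : ∃ w ∈ ball x2 ρ, ‖x2‖ < ‖w‖ := by
    by_cases h0 : x2 = 0
    · obtain ⟨u, hu⟩ := exists_norm_eq E (show (0 : ℝ) ≤ ρ / 2 by positivity)
      refine ⟨u, ?_, ?_⟩
      · rw [h0, mem_ball_zero_iff, hu]; linarith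
      · rw [h0, norm_zero, hu]; positivity
    · have hn0 : 0 < ‖x2‖ := norm_pos_iff.mpr h0
      refine ⟨(1 + ρ / (2 * ‖x2‖)) • x2, ?_, ?_⟩
      · rw [mem_ball, dist_eq_norm]
        have : (1 + ρ / (2 * ‖x2‖)) • x2 - x2 = (ρ / (2 * ‖x2‖)) • x2 := by
          rw [add_smul, one_smul]; abel
        rw [this, norm_smul, Real.norm_of_nonneg (by positivity)]
        have : ρ / (2 * ‖x2‖) * ‖x2‖ = ρ / 2 := by field_simp
        rw [this]; linarith
      · rw [norm_smul, Real.norm_of_nonneg (by positivity)]
        have : (1 + ρ / (2 * ‖x2‖)) * ‖x2‖ = ‖x2‖ + ρ / 2 := by field_simp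
        rw [this]; linarith
  have h3 := hx2max (show w ∈ M from hconst w hw)
  simp only [mem_ofPred_eq] at h3
  linarith

end Pool.Agent.Helper41.MVC
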