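import Mathlib
import Pool.Agent.Helper41.MVC.Mean

set_option autoImplicit false
set_option linter.unusedSectionVars false

namespace Pool.Agent.Helper41.MVC

open MeasureTheory Metric Set Filter Topology
open scoped RealInnerProductSpace Pointwise ENNReal

variable {E : Type*} [NormedAddCommGroup E] [InnerProductSpace ℝ E] [FiniteDimensional ℝ E]
  [MeasurableSpace E] [BorelSpace E]

theorem integrable_kernel_prod (hn : 3 ≤ Module.finrank ℝ E)
    {A B : Set E} (hA : MeasurableSet A) (hfin : volume A ≠ ⊤)
    (hBfin : volume B ≠ ⊤) :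
    Integrable (Function.uncurry fun (z y : E) => ‖z - y‖ ^ (ex E))
      ((volume.restrict B).prod (volume.restrict A)) := by
  have hm : Measurable (Function.uncurry fun (z y : E) => ‖z - y‖ ^ (ex E)) :=
    (measurable_fst.sub measurable_snd).norm.pow_const _
  rw [integrable_prod_iff hm.aestronglyMeasurable]
  constructor
  · refine Filter.Eventually.of_forall fun z => ?_
    have h9 : Integrable (fun y => ‖z - y‖ ^ (ex E)) (volume.restrict A) :=
      integrableOn_kernel (by omega) (ex_lt hn).1 (ex_lt hn).2.2.1 hA hfin z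
    exact h9
  · have hms : AEStronglyMeasurable (fun z => ∫ y in A, ‖‖z - y‖ ^ (ex E)‖) volume :=
      (StronglyMeasurable.integral_prod_right' (ν := volume.restrict A)
        hm.norm.stronglyMeasurable).aestronglyMeasurable
    apply Measure.integrableOn_of_bounded
        (M := rz E (ex E) 1 + (volume : Measure E).real A) hBfin hms
    · refine Filter.Eventually.of_forall fun z => ?_
      rw [Real.norm_of_nonneg (integral_nonneg fun _ => norm_nonneg _)]
      have h1 : ∀ y : E, ‖‖z - y‖ ^ (ex E)‖ = ‖z - y‖ ^ (ex E) := fun y =>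
        Real.norm_of_nonneg (by positivity)
      simp_rw [h1]
      exact integral_kernel_le (by omega) (ex_lt hn).1 (ex_lt hn).2.2.1 hA hfin z

theorem U_split (hn : 3 ≤ Module.finrank ℝ E)
    {A : Set E} (hA : MeasurableSet A) (hfin : volume A ≠ ⊤) {x : E} {ρ : ℝ}
    (hnull : volume (ball x ρ \ A) = 0) (z : E) :
    U A z = U (ball x ρ) z + U (A \ ball x ρ) z := by
  unfold U
  rw [← integral_inter_add_sdiff (s := A) (t := ball x ρ) measurableSet_ball
    (integrableOn_kernel (by omega) (ex_lt hn).1 (ex_lt hn).2.2.1 hA hfin z)]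
  congr 1
  apply setIntegral_congr_set
  apply Filter.EventuallyLE.antisymm
  · exact (inter_subset_right : A ∩ ball x ρ ⊆ ball x ρ).eventuallyLE
  · rw [ae_le_set]
    have h1 : ball x ρ \ (A ∩ ball x ρ) = ball x ρ \ A := by
      ext y
      simp only [Set.mem_sdiff, mem_inter_iff]
      tauto
    rw [h1]
    exact hnull

/-- second moment of a ball -/
noncomputable def S2 (E : Type*) [NormedAddCommGroup E] [InnerProductSpace ℝ E] [FiniteDimensional ℝ E]
    [MeasurableSpace E] [BorelSpace E] (ρ : ℝ) : ℝ := ∫ y in ball (0 : E) ρ, ‖y‖ ^ 2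

theorem integral_S2_shift (x : E) (ρ : ℝ) : ∫ y in ball x ρ, ‖y - x‖ ^ 2 = S2 E ρ := by
  have hp := measurePreserving_sub_right (volume : Measure E) x
  have := hp.setIntegral_preimage_emb (MeasurableEquiv.measurableEmbedding
    (MeasurableEquiv.subRight x)) (fun z : E => ‖z‖ ^ 2) (ball 0 ρ)
  rw [preimage_add_ball] at this
  exact this

theorem S2_pos [Nontrivial E] {ρ : ℝ} (hρ : 0 < ρ) : 0 < S2 E ρ := by
  unfold S2
  have hi : IntegrableOn (fun y : E => ‖y‖ ^ 2) (ball 0 ρ) :=
    ((by fun_prop : Continuous fun y : E => ‖y‖ ^ 2).locallyIntegrable.integrableOn_isCompact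
      (isCompact_closedBall 0 ρ)).mono_set ball_subset_closedBall
  rw [setIntegral_pos_iff_support_of_nonneg_ae]
  · have hopen : IsOpen (Function.support (fun y : E => ‖y‖ ^ 2) ∩ ball 0 ρ) :=
      (Continuous.isOpen_support (by fun_prop)).inter isOpen_ball
    apply hopen.measure_pos volume
    obtain ⟨u, hu⟩ := exists_norm_eq E (show (0 : ℝ) ≤ ρ / 2 by positivity)
    refine ⟨u, ?_, ?_⟩
    · rw [Function.mem_support, hu]; positivity
    · rw [mem_ball_zero_iff, hu]; linarith
  · exact Filter.Eventually.of_forall fun y => by positivity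
  · exact hi

theorem U_integral_ball (hn : 3 ≤ Module.finrank ℝ E)
    {A : Set E} (hA : MeasurableSet A) (hfin : volume A ≠ ⊤) (x : E) (ρ : ℝ) :
    ∫ z in ball x ρ, U A z = ∫ y in A, U (ball x ρ) y := by
  have h := integral_integral_swap (integrable_kernel_prod hn hA hfin (B := ball x ρ)
    measure_ball_lt_top.ne)
  unfold U
  rw [h]
  congr 1
  funext y
  congr 1
  funext z
  rw [norm_sub_rev]

/-- mean value of the potential over a ball contained in the set up to a null set -/
theorem U_mean (hn : 3 ≤ Module.finrank ℝ E)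
    {A : Set E} (hA : MeasurableSet A) (hfin : volume A ≠ ⊤) {x : E} {ρ : ℝ}
    (hρ : 0 < ρ) (hnull : volume (ball x ρ \ A) = 0) :
    ∫ z in ball x ρ, U A z = (volume : Measure E).real (ball x ρ) * U A x
      - (volume : Measure E).real (ball (0 : E) 1) * (Module.finrank ℝ E - 2) / 2 * S2 E ρ := by
  have hnt : Nontrivial E := Module.nontrivial_of_finrank_pos (R := ℝ) (by omega)
  have hBm : MeasurableSet (ball x ρ) := measurableSet_ball
  have hBf : volume (ball x ρ) ≠ ⊤ := measure_ball_lt_top.ne
  have hAB : MeasurableSet (A \ ball x ρ) := hA.diff hBm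
  have hABf : volume (A \ ball x ρ) ≠ ⊤ := ne_top_of_le_ne_top hfin (measure_mono sdiff_subset)
  simp_rw [U_split hn hA hfin hnull]
  have i1 : IntegrableOn (U (ball x ρ)) (ball x ρ) :=
    ((continuous_U hn hBm hBf).locallyIntegrable.integrableOn_isCompact
      (isCompact_closedBall x ρ)).mono_set ball_subset_closedBall
  have i2 : IntegrableOn (U (A \ ball x ρ)) (ball x ρ) :=
    ((continuous_U hn hAB hABf).locallyIntegrable.integrableOn_isCompact
      (isCompact_closedBall x ρ)).mono_set ball_subset_closedBall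
  rw [integral_add i1 i2]
  have e2 : ∫ z in ball x ρ, U (A \ ball x ρ) z
      = (volume : Measure E).real (ball x ρ) * U (A \ ball x ρ) x := by
    rw [U_integral_ball hn hAB hABf]
    have h5 : (volume : Measure E).real (ball x ρ) * U (A \ ball x ρ) x
        = ∫ y in A \ ball x ρ, (volume : Measure E).real (ball x ρ) * ‖x - y‖ ^ (ex E) := by
      rw [integral_const_mul]; rfl
    rw [h5]
    apply setIntegral_congr_fun hAB
    intro y hy
    have h6 : ρ ≤ ‖y - x‖ := by
      have h7 := hy.2
      simpa only [mem_ball, not_lt, dist_eq_norm] using h7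
    simp only
    rw [U_ball_outer hn hρ.le h6, norm_sub_rev]
  have e1 : ∫ z in ball x ρ, U (ball x ρ) z
      = (volume : Measure E).real (ball x ρ) * U (ball x ρ) x
        - (volume : Measure E).real (ball (0 : E) 1) * (Module.finrank ℝ E - 2) / 2 * S2 E ρ := by
    have h1 : ∫ z in ball x ρ, U (ball x ρ) z
        = ∫ z in ball x ρ, (U (ball x ρ) x - (volume : Measure E).real (ball (0 : E) 1)
          * (Module.finrank ℝ E - 2) / 2 * ‖z - x‖ ^ 2) := by
      apply setIntegral_congr_fun hBm
      intro z hz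
      rw [mem_ball, dist_eq_norm] at hz
      simp only
      rw [U_ball_inner hn hρ hz.le, U_ball_inner hn hρ (by rw [sub_self, norm_zero]; exact hρ.le),
        sub_self, norm_zero, volume_ball_shift x ρ, volume_ball hn hρ.le]
      field_simp
      ring
    have i3 : IntegrableOn (fun z : E => ‖z - x‖ ^ 2) (ball x ρ) :=
      ((by fun_prop : Continuous fun y : E => ‖y - x‖ ^ 2).locallyIntegrable.integrableOn_isCompact
        (isCompact_closedBall x ρ)).mono_set ball_subset_closedBall
    have i0 : IntegrableOn (fun _ : E => U (ball x ρ) x) (ball x ρ) := integrableOn_const hBf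
    rw [h1, integral_sub i0 (i3.const_mul _), integral_const_mul,
      integral_S2_shift]
    simp
  rw [e1, e2]
  ring

/-- mean value of the squared distance -/
theorem sq_mean (x0 x : E) {ρ : ℝ} :
    ∫ z in ball x ρ, ‖z - x0‖ ^ 2 = (volume : Measure E).real (ball x ρ) * ‖x - x0‖ ^ 2 + S2 E ρ := by
  have hBf : volume (ball x ρ) ≠ ⊤ := measure_ball_lt_top.ne
  have h1 : ∀ z : E, ‖z - x0‖ ^ 2 = ‖z - x‖ ^ 2 + 2 * ⟪x - x0, z - x⟫ + ‖x - x0‖ ^ 2 := by
    intro z
    have : z - x0 = (z - x) + (x - x0) := by abel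
    rw [this, norm_add_sq_real, real_inner_comm]
  have h0 : ∫ z in ball x ρ, ‖z - x0‖ ^ 2
      = ∫ z in ball x ρ, (‖z - x‖ ^ 2 + 2 * ⟪x - x0, z - x⟫ + ‖x - x0‖ ^ 2) := by
    congr 1
    funext z
    exact h1 z
  rw [h0]
  have i3 : IntegrableOn (fun z : E => ‖z - x‖ ^ 2) (ball x ρ) :=
    ((by fun_prop : Continuous fun y : E => ‖y - x‖ ^ 2).locallyIntegrable.integrableOn_isCompact
      (isCompact_closedBall x ρ)).mono_set ball_subset_closedBall
  have i4 : IntegrableOn (fun z : E => 2 * ⟪x - x0, z - x⟫) (ball x ρ) :=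
    ((by fun_prop : Continuous fun z : E => 2 * ⟪x - x0, z - x⟫).locallyIntegrable.integrableOn_isCompact
      (isCompact_closedBall x ρ)).mono_set ball_subset_closedBall
  have h2 : ∫ z in ball x ρ, 2 * ⟪x - x0, z - x⟫ = 0 := by
    have hp := Measure.measurePreserving_sub_left (volume : Measure E) (x + x)
    have h1 := hp.setIntegral_preimage_emb (MeasurableEquiv.measurableEmbedding
      (MeasurableEquiv.subLeft (x + x))) (fun z => 2 * ⟪x - x0, z - x⟫) (ball x ρ)
    have h2 : (fun y => x + x - y) ⁻¹' ball x ρ = ball x ρ := by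
      ext y
      simp only [mem_preimage, mem_ball, dist_eq_norm]
      rw [show x + x - y - x = -(y - x) by abel, norm_neg]
    rw [h2] at h1
    have h3 : ∀ y, 2 * ⟪x - x0, x + x - y - x⟫ = - (2 * ⟪x - x0, y - x⟫) := by
      intro y
      rw [show x + x - y - x = -(y - x) by abel, inner_neg_right]
      ring
    simp_rw [h3] at h1
    rw [integral_neg] at h1
    linarith
  have i5 : IntegrableOn (fun z : E => ‖z - x‖ ^ 2 + 2 * ⟪x - x0, z - x⟫) (ball x ρ) := i3.add i4
  have i6 : IntegrableOn (fun _ : E => ‖x - x0‖ ^ 2) (ball x ρ) := integrableOn_const hBf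
  rw [integral_add i5 i6, integral_add i3 i4, h2, integral_S2_shift]
  simp
  ring

end Pool.Agent.Helper41.MVC
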