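import Mathlib
import Pool.Agent.Helper41.MVC.Bdd

set_option autoImplicit false
set_option linter.unusedSectionVars false

namespace Pool.Agent.Helper41.MVC

open MeasureTheory Metric Set Filter Topology
open scoped RealInnerProductSpace Pointwise ENNReal

variable {E : Type*} [NormedAddCommGroup E] [InnerProductSpace ℝ E] [FiniteDimensional ℝ E]
  [MeasurableSpace E] [BorelSpace E]

/-- radial potential -/
noncomputable def G (A : Set E) (ρ : ℝ) : ℝ := ∫ y in A, (max ‖y‖ ρ) ^ (ex E)

theorem max_rpow_le {a b : ℝ} (ha : 0 < a) (_hb : 0 ≤ b) {p : ℝ} (hp : p ≤ 0) : (max b a) ^ p ≤ a ^ p :=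
  Real.rpow_le_rpow_of_nonpos ha (le_max_right _ _) hp

theorem integrableOn_G (hn : 3 ≤ Module.finrank ℝ E) {A : Set E} (hA : MeasurableSet A)
    (hfin : volume A ≠ ⊤) {ρ : ℝ} (hρ : 0 ≤ ρ) :
    IntegrableOn (fun y : E => (max ‖y‖ ρ) ^ (ex E)) A := by
  rcases hρ.eq_or_lt with h | h
  · have := integrableOn_kernel (by omega) (ex_lt hn).1 (ex_lt hn).2.2.1 hA hfin (0 : E)
    refine this.congr_fun (fun y _ => ?_) hA
    simp only
    rw [zero_sub, norm_neg, ← h, max_eq_left (norm_nonneg y)]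
  · apply Measure.integrableOn_of_bounded (M := ρ ^ (ex E)) hfin
    · exact ((measurable_norm.max measurable_const).pow_const _).aestronglyMeasurable
    · refine Filter.Eventually.of_forall fun y => ?_
      rw [Real.norm_of_nonneg (by positivity)]
      exact max_rpow_le h (norm_nonneg y) (ex_lt hn).2.2.1

theorem integral_kernel_sphere (hn : 3 ≤ Module.finrank ℝ E) {ρ : ℝ} (hρ : 0 < ρ) {y : E} (hy : ‖y‖ ≠ ρ) :
    ∫ θ : sphere (0 : E) 1, ‖ρ • (θ : E) - y‖ ^ (ex E) ∂(sph E)
      = (max ‖y‖ ρ) ^ (ex E) * (sph E).real univ := by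
  have h := lintegral_kernel_of_ne hn hρ hy
  have hm : Measurable fun θ : sphere (0 : E) 1 => ‖ρ • (θ : E) - y‖ ^ (ex E) := by
    have : Continuous fun θ : sphere (0 : E) 1 => ‖ρ • (θ : E) - y‖ := by fun_prop
    exact this.measurable.pow_const _
  rw [integral_eq_lintegral_of_nonneg_ae (Filter.Eventually.of_forall fun y => by positivity)
    hm.aestronglyMeasurable]
  simp_rw [norm_sub_rev (ρ • _) y]
  rw [h, ENNReal.toReal_mul, ENNReal.toReal_ofReal (by positivity)]
  rfl

theorem sphere_mean (hn : 3 ≤ Module.finrank ℝ E) {A : Set E} (hA : MeasurableSet A)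
    (hfin : volume A ≠ ⊤) {ρ : ℝ} (hρ : 0 < ρ) :
    ∫ θ : sphere (0 : E) 1, U A (ρ • (θ : E)) ∂(sph E) = (sph E).real univ * G A ρ := by
  have hnt : Nontrivial E := Module.nontrivial_of_finrank_pos (R := ℝ) (by omega)
  have hprod : Integrable (Function.uncurry fun (θ : sphere (0 : E) 1) (y : E) => ‖ρ • (θ : E) - y‖ ^ (ex E))
      ((sph E).prod (volume.restrict A)) := by
    have hm : Measurable (Function.uncurry fun (θ : sphere (0 : E) 1) (y : E) => ‖ρ • (θ : E) - y‖ ^ (ex E)) := by
      have h1 : Measurable fun p : sphere (0 : E) 1 × E => ρ • (p.1 : E) - p.2 :=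
        (by fun_prop : Continuous fun p : sphere (0 : E) 1 × E => ρ • (p.1 : E) - p.2).measurable
      exact h1.norm.pow_const _
    rw [integrable_prod_iff hm.aestronglyMeasurable]
    constructor
    · refine Filter.Eventually.of_forall fun θ => ?_
      have h9 : Integrable (fun y => ‖ρ • (θ : E) - y‖ ^ (ex E)) (volume.restrict A) :=
        integrableOn_kernel (by omega) (ex_lt hn).1 (ex_lt hn).2.2.1 hA hfin _
      exact h9
    · have hms : AEStronglyMeasurable (fun θ : sphere (0 : E) 1 => ∫ y in A, ‖‖ρ • (θ : E) - y‖ ^ (ex E)‖) (sph E) :=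
        (StronglyMeasurable.integral_prod_right' (ν := volume.restrict A)
          hm.norm.stronglyMeasurable).aestronglyMeasurable
      apply Integrable.of_bound (C := rz E (ex E) 1 + (volume : Measure E).real A) hms
      refine Filter.Eventually.of_forall fun θ => ?_
      rw [Real.norm_of_nonneg (integral_nonneg fun _ => norm_nonneg _)]
      have h1 : ∀ y : E, ‖‖ρ • (θ : E) - y‖ ^ (ex E)‖ = ‖ρ • (θ : E) - y‖ ^ (ex E) := fun y =>
        Real.norm_of_nonneg (by positivity)
      have h2 : ∫ y in A, ‖‖ρ • (θ : E) - y‖ ^ (ex E)‖ = ∫ y in A, ‖ρ • (θ : E) - y‖ ^ (ex E) := by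
        congr 1
        funext y
        exact h1 y
      refine h2.le.trans ?_
      exact integral_kernel_le (by omega) (ex_lt hn).1 (ex_lt hn).2.2.1 hA hfin _
  unfold U
  rw [integral_integral_swap hprod]
  unfold G
  rw [← integral_const_mul]
  apply integral_congr_ae
  have hae : ∀ᵐ y ∂(volume.restrict A), ‖y‖ ≠ ρ := by
    apply ae_restrict_of_ae
    rw [ae_iff]
    have : {y : E | ¬ ‖y‖ ≠ ρ} = sphere 0 ρ := by ext y; simp
    rw [this]
    exact Measure.addHaar_sphere _ _ _
  filter_upwards [hae] with y hy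
  rw [integral_kernel_sphere hn hρ hy]
  ring

theorem sph_univ_pos (hn : 3 ≤ Module.finrank ℝ E) : 0 < (sph E).real univ := by
  rw [sph_univ]
  have h1 : 0 < (volume : Measure E).real (ball 0 1) := volume_ball_pos' one_pos 0
  have h2 : (0 : ℝ) < Module.finrank ℝ E := by exact_mod_cast (by omega : 0 < Module.finrank ℝ E)
  positivity

theorem G_le (hn : 3 ≤ Module.finrank ℝ E) {A : Set E} (hA : MeasurableSet A)
    (hfin : volume A ≠ ⊤) {ρ : ℝ} (hρ : 0 < ρ) : G A ρ ≤ (volume : Measure E).real A * ρ ^ (ex E) := by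
  unfold G
  calc ∫ y in A, (max ‖y‖ ρ) ^ (ex E) ≤ ∫ y in A, ρ ^ (ex E) := by
        apply setIntegral_mono_on (integrableOn_G hn hA hfin hρ.le) (integrableOn_const hfin) hA
        intro y _
        exact max_rpow_le hρ (norm_nonneg y) (ex_lt hn).2.2.1
    _ = _ := by simp

/-- strictness: equality forces the open set to lie in the closed ball -/
theorem G_eq (hn : 3 ≤ Module.finrank ℝ E) {A : Set E} (hA : IsOpen A)
    (hfin : volume A ≠ ⊤) {ρ : ℝ} (hρ : 0 < ρ)
    (h : (volume : Measure E).real A * ρ ^ (ex E) ≤ G A ρ) : ∀ y ∈ A, ‖y‖ ≤ ρ := by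
  by_contra hcon
  push Not at hcon
  obtain ⟨y0, hy0, hy0ρ⟩ := hcon
  have hAm := hA.measurableSet
  have i1 := integrableOn_G hn hAm hfin hρ.le
  have i2 : IntegrableOn (fun _ : E => ρ ^ (ex E)) A := integrableOn_const hfin
  have i3 : IntegrableOn (fun y : E => ρ ^ (ex E) - (max ‖y‖ ρ) ^ (ex E)) A := i2.sub i1
  have hz : ∫ y in A, (ρ ^ (ex E) - (max ‖y‖ ρ) ^ (ex E)) ≤ 0 := by
    rw [integral_sub i2 i1]
    unfold G at h
    simp only [integral_const, smul_eq_mul, MeasurableSet.univ, measureReal_restrict_apply, univ_inter]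
    linarith
  have hp : 0 < ∫ y in A, (ρ ^ (ex E) - (max ‖y‖ ρ) ^ (ex E)) := by
    rw [setIntegral_pos_iff_support_of_nonneg_ae _ i3]
    · have hopen : IsOpen (A ∩ {y : E | ρ < ‖y‖}) := hA.inter (isOpen_lt continuous_const continuous_norm)
      refine lt_of_lt_of_le (hopen.measure_pos volume ⟨y0, hy0, hy0ρ⟩) (measure_mono ?_)
      intro y hy
      refine ⟨?_, hy.1⟩
      rw [Function.mem_support]
      have hlt : ρ < ‖y‖ := hy.2
      have : (max ‖y‖ ρ) ^ (ex E) < ρ ^ (ex E) := by
        rw [max_eq_left hlt.le]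
        exact Real.rpow_lt_rpow_of_neg hρ hlt (ex_lt hn).2.2.2.2
      linarith
    · exact Filter.Eventually.of_forall fun y =>
        sub_nonneg.mpr (max_rpow_le hρ (norm_nonneg y) (ex_lt hn).2.2.1)
  linarith

/-- the mean value hypothesis, `m` times the mean of the kernel over the unit sphere being written
explicitly -/
def MV (Ω : Set E) : Prop :=
  ∀ x, x ∉ Ω → U Ω x = (volume : Measure E).real Ω * (max 1 ‖x‖) ^ (ex E)

theorem U_nonneg (A : Set E) (x : E) : 0 ≤ U A x :=
  integral_nonneg fun y => by positivity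

/-- nondegeneracy -/
theorem nondeg (hn : 3 ≤ Module.finrank ℝ E) {Ω : Set E} (hΩ : IsOpen Ω) (hfin : volume Ω ≠ ⊤)
    (hMV : MV Ω) {x0 : E} (hx0 : 2 < ‖x0‖)
    (hw : U Ω x0 < (volume : Measure E).real Ω * ‖x0‖ ^ (ex E)) :
    ∃ x1, ‖x1 - x0‖ = 1 / 2 ∧ U Ω x1 + (volume : Measure E).real (ball (0 : E) 1) * (Module.finrank ℝ E - 2) / 16
      ≤ (volume : Measure E).real Ω * ‖x1‖ ^ (ex E) := by
  have hnt : Nontrivial E := Module.nontrivial_of_finrank_pos (R := ℝ) (by omega)
  have hn3 : (3 : ℝ) ≤ Module.finrank ℝ E := by exact_mod_cast hn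
  set κ := (volume : Measure E).real (ball (0 : E) 1) with hκ
  have hκpos : 0 < κ := volume_ball_pos' one_pos 0
  set m := (volume : Measure E).real Ω with hm
  set c1 := κ * (Module.finrank ℝ E - 2) / 4 with hc1
  have hc1pos : 0 < c1 := by
    have : (0 : ℝ) < Module.finrank ℝ E - 2 := by linarith
    positivity
  have hUc := continuous_U hn hΩ.measurableSet hfin
  set W : E → ℝ := fun x => m * ‖x‖ ^ (ex E) - U Ω x - c1 * ‖x - x0‖ ^ 2 with hW
  have hnear : ∀ x ∈ closedBall x0 (1 / 2), 1 < ‖x‖ := by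
    intro x hx
    rw [mem_closedBall, dist_eq_norm] at hx
    have : ‖x0‖ ≤ ‖x‖ + ‖x - x0‖ := by
      calc ‖x0‖ = ‖x - (x - x0)‖ := by congr 1; abel
        _ ≤ _ := norm_sub_le _ _
    linarith
  have hWc : ContinuousOn W (closedBall x0 (1 / 2)) := by
    rw [hW]
    apply ContinuousOn.sub
    · apply ContinuousOn.sub _ hUc.continuousOn
      apply ContinuousOn.mul continuousOn_const
      apply ContinuousOn.rpow_const continuous_norm.continuousOn
      intro x hx
      left
      have := hnear x hx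
      linarith
    · fun_prop
  obtain ⟨x1, hx1, hx1max⟩ := (isCompact_closedBall x0 (1 / 2)).exists_isMaxOn
    ⟨x0, mem_closedBall_self (by norm_num)⟩ hWc
  have hWx0 : W x0 ≤ W x1 := hx1max (mem_closedBall_self (by norm_num))
  have hWx0' : 0 < W x0 := by
    rw [hW]
    simp only [sub_self, norm_zero]
    linarith
  have hd : ‖x1 - x0‖ = 1 / 2 := by
    by_contra hne
    have hx1' : ‖x1 - x0‖ < 1 / 2 := by
      rw [mem_closedBall, dist_eq_norm] at hx1
      exact lt_of_le_of_ne hx1 hne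
    have hx1n := hnear x1 hx1
    -- x1 lies in Ω
    have hx1Ω : x1 ∈ Ω := by
      by_contra hx
      have h1 := hMV x1 hx
      rw [max_eq_right hx1n.le] at h1
      have h2 : W x1 ≤ 0 := by
        rw [hW]
        simp only
        rw [h1]
        have : 0 ≤ c1 * ‖x1 - x0‖ ^ 2 := by positivity
        linarith
      linarith
    obtain ⟨ρ1, hρ1, hρ1s⟩ := Metric.isOpen_iff.mp hΩ x1 hx1Ω
    set ρ := min ρ1 (1 / 2 - ‖x1 - x0‖) with hρd
    have hρ : 0 < ρ := lt_min hρ1 (by linarith)
    have hρh : ρ ≤ 1 / 2 := (min_le_right _ _).trans (by linarith [norm_nonneg (x1 - x0)])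
    have hBs : ball x1 ρ ⊆ closedBall x0 (1 / 2) := by
      intro z hz
      rw [mem_ball, dist_eq_norm] at hz
      rw [mem_closedBall, dist_eq_norm]
      have h3 : ‖z - x0‖ ≤ ‖z - x1‖ + ‖x1 - x0‖ := by
        calc ‖z - x0‖ = ‖(z - x1) + (x1 - x0)‖ := by congr 1; abel
          _ ≤ _ := norm_add_le _ _
      have h4 : ρ ≤ 1 / 2 - ‖x1 - x0‖ := min_le_right _ _
      linarith
    have hnull : volume (ball x1 ρ \ Ω) = 0 := by
      have : ball x1 ρ \ Ω = ∅ := by
        rw [sdiff_eq_empty]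
        exact (ball_subset_ball (min_le_left _ _)).trans hρ1s
      rw [this, measure_empty]
    have hBf : volume (ball x1 ρ) ≠ ⊤ := measure_ball_lt_top.ne
    have e1 := U_mean hn hΩ.measurableSet hfin hρ hnull
    have e2 := sq_mean x0 x1 (ρ := ρ)
    have e3 : ∫ z in ball x1 ρ, ‖z‖ ^ (ex E) = (volume : Measure E).real (ball x1 ρ) * ‖x1‖ ^ (ex E) := by
      have h5 := U_ball_outer hn hρ.le (x := x1) (y := 0) (by rw [zero_sub, norm_neg]; linarith)
      rw [zero_sub, norm_neg] at h5
      rw [← h5]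
      unfold U
      congr 1
      funext z
      rw [zero_sub, norm_neg]
    have i1 : IntegrableOn (fun z : E => m * ‖z‖ ^ (ex E)) (ball x1 ρ) := by
      have := (integrableOn_kernel (by omega) (ex_lt hn).1 (ex_lt hn).2.2.1
        (measurableSet_ball (x := x1) (ε := ρ)) hBf (0 : E)).const_mul m
      simp only [zero_sub, norm_neg] at this
      exact this
    have i2 : IntegrableOn (fun z : E => U Ω z) (ball x1 ρ) :=
      (hUc.locallyIntegrable.integrableOn_isCompact (isCompact_closedBall x1 ρ)).mono_set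
        ball_subset_closedBall
    have i3 : IntegrableOn (fun z : E => c1 * ‖z - x0‖ ^ 2) (ball x1 ρ) :=
      ((by fun_prop : Continuous fun z : E => c1 * ‖z - x0‖ ^ 2).locallyIntegrable.integrableOn_isCompact
        (isCompact_closedBall x1 ρ)).mono_set ball_subset_closedBall
    have i4 : IntegrableOn (fun z : E => m * ‖z‖ ^ (ex E) - U Ω z) (ball x1 ρ) := i1.sub i2
    have i5 : IntegrableOn W (ball x1 ρ) := i4.sub i3
    have e4 : ∫ z in ball x1 ρ, W z = (volume : Measure E).real (ball x1 ρ) * W x1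
        + (κ * (Module.finrank ℝ E - 2) / 2 - c1) * S2 E ρ := by
      have : ∫ z in ball x1 ρ, W z = ∫ z in ball x1 ρ, (m * ‖z‖ ^ (ex E) - U Ω z - c1 * ‖z - x0‖ ^ 2) := rfl
      rw [this, integral_sub i4 i3, integral_sub i1 i2, integral_const_mul, integral_const_mul, e1, e2, e3]
      rw [hW]
      simp only
      ring
    have e5 : ∫ z in ball x1 ρ, W z ≤ ∫ z in ball x1 ρ, W x1 := by
      apply setIntegral_mono_on i5 (integrableOn_const hBf) measurableSet_ball
      intro z hz
      exact hx1max (hBs hz)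
    have e6 : ∫ z in ball x1 ρ, W x1 = (volume : Measure E).real (ball x1 ρ) * W x1 := by simp
    have e7 : 0 < (κ * (Module.finrank ℝ E - 2) / 2 - c1) * S2 E ρ := by
      have h8 : κ * (Module.finrank ℝ E - 2) / 2 - c1 = c1 := by rw [hc1]; ring
      rw [h8]
      exact mul_pos hc1pos (S2_pos hρ)
    linarith
  refine ⟨x1, hd, ?_⟩
  have h9 : 0 < W x1 := lt_of_lt_of_le hWx0' hWx0
  rw [hW] at h9
  simp only [hd] at h9
  rw [hc1] at h9
  linarith

/-- boundedness -/
theorem bounded (hn : 3 ≤ Module.finrank ℝ E) {Ω : Set E} (hΩ : IsOpen Ω) (hfin : volume Ω ≠ ⊤)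
    (hMV : MV Ω) : ∃ R, 0 < R ∧ ∀ y ∈ Ω, ‖y‖ ≤ R := by
  have hnt : Nontrivial E := Module.nontrivial_of_finrank_pos (R := ℝ) (by omega)
  have hn3 : (3 : ℝ) ≤ Module.finrank ℝ E := by exact_mod_cast hn
  have hκpos : 0 < (volume : Measure E).real (ball (0 : E) 1) := volume_ball_pos' one_pos 0
  set m := (volume : Measure E).real Ω with hm
  set c := (volume : Measure E).real (ball (0 : E) 1) * (Module.finrank ℝ E - 2) / 16 with hc
  have hcpos : 0 < c := by
    have : (0 : ℝ) < Module.finrank ℝ E - 2 := by linarith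
    positivity
  have ht : Tendsto (fun t : ℝ => m * t ^ (ex E)) atTop (𝓝 0) := by
    have h1 : Tendsto (fun t : ℝ => t ^ (-(-(ex E)))) atTop (𝓝 0) :=
      tendsto_rpow_neg_atTop (by linarith [(ex_lt hn).2.2.2.2])
    rw [neg_neg] at h1
    simpa using h1.const_mul m
  obtain ⟨R, hR⟩ := (ht.eventually (eventually_lt_nhds hcpos)).exists_forall_of_atTop
  set R1 := max R 2 + 1 with hR1
  have hR1pos : 0 < R1 := by
    have : (2 : ℝ) ≤ max R 2 := le_max_right _ _
    linarith
  refine ⟨R1, hR1pos, ?_⟩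
  -- w is nonpositive on the sphere of radius R1
  have hw : ∀ x : E, ‖x‖ = R1 → m * R1 ^ (ex E) ≤ U Ω x := by
    intro x hx
    by_contra hcon
    push Not at hcon
    have h2 : (2 : ℝ) < ‖x‖ := by
      rw [hx]
      have : (2 : ℝ) ≤ max R 2 := le_max_right _ _
      linarith
    obtain ⟨x1, hx1, hx1w⟩ := nondeg hn hΩ hfin hMV h2 (by rw [hx]; exact hcon)
    have h3 : ‖x‖ ≤ ‖x1‖ + ‖x1 - x‖ := by
      calc ‖x‖ = ‖x1 - (x1 - x)‖ := by congr 1; abel
        _ ≤ _ := norm_sub_le _ _
    have h4 : R ≤ ‖x1‖ := by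
      have : R ≤ max R 2 := le_max_left _ _
      linarith
    have h5 := hR _ h4
    have h6 := U_nonneg Ω x1
    linarith
  have hσ : 0 < (sph E).real univ := sph_univ_pos hn
  have hmean := sphere_mean hn hΩ.measurableSet hfin hR1pos
  apply G_eq hn hΩ hfin hR1pos
  have hUc := continuous_U hn hΩ.measurableSet hfin
  have h7 : ∫ θ : sphere (0 : E) 1, m * R1 ^ (ex E) ∂(sph E)
      ≤ ∫ θ : sphere (0 : E) 1, U Ω (R1 • (θ : E)) ∂(sph E) := by
    apply integral_mono (integrable_const _)
    · have : Continuous fun θ : sphere (0 : E) 1 => U Ω (R1 • (θ : E)) :=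
        hUc.comp (by fun_prop)
      exact this.integrable_of_hasCompactSupport (HasCompactSupport.of_compactSpace _)
    · intro θ
      apply hw
      rw [norm_smul, Real.norm_of_nonneg hR1pos.le]
      simp
  rw [hmean, integral_const, smul_eq_mul] at h7
  exact le_of_mul_le_mul_left h7 hσ

end Pool.Agent.Helper41.MVC
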