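import Mathlib
import Pool.Agent.Helper41.MVC.Sph

set_option autoImplicit false
set_option linter.unusedSectionVars false

namespace Pool.Agent.Helper41.MVC

open MeasureTheory Metric Set Filter Topology
open scoped RealInnerProductSpace Pointwise ENNReal

variable {E : Type*} [NormedAddCommGroup E] [InnerProductSpace ℝ E] [FiniteDimensional ℝ E]
  [MeasurableSpace E] [BorelSpace E]

theorem norm_rot_sub_le {e f : E} (he : ‖e‖ = 1) (hf : ‖f‖ = 1) (hef : ⟪e, f⟫ = 0) (t : ℝ) (z : E) :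
    ‖rot he hf hef t z - z‖ ≤ 4 * |t| * ‖z‖ := by
  rw [rot_apply, rotLin_apply]
  have a1 : |⟪e, z⟫| ≤ ‖z‖ := by
    have := abs_real_inner_le_norm e z; rwa [he, one_mul] at this
  have a2 : |⟪f, z⟫| ≤ ‖z‖ := by
    have := abs_real_inner_le_norm f z; rwa [hf, one_mul] at this
  have a3 : |Real.sin t| ≤ |t| := Real.abs_sin_le_abs
  have a4 : |Real.cos t - 1| ≤ |t| := by
    have h1 : Real.cos t ≤ 1 := Real.cos_le_one t
    rw [abs_sub_comm, abs_of_nonneg (by linarith)]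
    by_cases ht : |t| ≤ 2
    · have h2 := Real.one_sub_sq_div_two_le_cos (x := t)
      have h3 : t ^ 2 = |t| ^ 2 := (sq_abs t).symm
      have h4 : |t| ^ 2 ≤ 2 * |t| := by nlinarith [abs_nonneg t]
      linarith
    · have h5 := Real.neg_one_le_cos t
      push Not at ht
      linarith
  have e1 : z + ((Real.cos t - 1) * ⟪e, z⟫ - Real.sin t * ⟪f, z⟫) • e
      + (Real.sin t * ⟪e, z⟫ + (Real.cos t - 1) * ⟪f, z⟫) • f - z
      = ((Real.cos t - 1) * ⟪e, z⟫ - Real.sin t * ⟪f, z⟫) • e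
      + (Real.sin t * ⟪e, z⟫ + (Real.cos t - 1) * ⟪f, z⟫) • f := by abel
  rw [e1]
  calc ‖((Real.cos t - 1) * ⟪e, z⟫ - Real.sin t * ⟪f, z⟫) • e
      + (Real.sin t * ⟪e, z⟫ + (Real.cos t - 1) * ⟪f, z⟫) • f‖
      ≤ ‖((Real.cos t - 1) * ⟪e, z⟫ - Real.sin t * ⟪f, z⟫) • e‖
        + ‖(Real.sin t * ⟪e, z⟫ + (Real.cos t - 1) * ⟪f, z⟫) • f‖ := norm_add_le _ _
    _ = |(Real.cos t - 1) * ⟪e, z⟫ - Real.sin t * ⟪f, z⟫|
        + |Real.sin t * ⟪e, z⟫ + (Real.cos t - 1) * ⟪f, z⟫| := by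
        rw [norm_smul, norm_smul, he, hf, mul_one, mul_one, Real.norm_eq_abs, Real.norm_eq_abs]
    _ ≤ (|(Real.cos t - 1) * ⟪e, z⟫| + |Real.sin t * ⟪f, z⟫|)
        + (|Real.sin t * ⟪e, z⟫| + |(Real.cos t - 1) * ⟪f, z⟫|) := by
        gcongr
        · exact abs_sub _ _
        · exact abs_add_le _ _
    _ = (|Real.cos t - 1| * |⟪e, z⟫| + |Real.sin t| * |⟪f, z⟫|)
        + (|Real.sin t| * |⟪e, z⟫| + |Real.cos t - 1| * |⟪f, z⟫|) := by
        rw [abs_mul, abs_mul, abs_mul, abs_mul]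
    _ ≤ (|t| * ‖z‖ + |t| * ‖z‖) + (|t| * ‖z‖ + |t| * ‖z‖) := by gcongr
    _ = 4 * |t| * ‖z‖ := by ring

/-- decay of the rotation derivative -/
theorem V_tendsto (hn : 3 ≤ Module.finrank ℝ E) {e f : E} (he : ‖e‖ = 1) (hf : ‖f‖ = 1)
    {A : Set E} (hA : MeasurableSet A) (hfin : volume A ≠ ⊤) {R : ℝ} (hR : 0 < R)
    (hAR : ∀ y ∈ A, ‖y‖ ≤ R) : Tendsto (V e f A) (cocompact E) (𝓝 0) := by
  have hex : 0 < -(ex E) := by linarith [(ex_lt hn).2.2.2.2]
  set m := (volume : Measure E).real A with hm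
  set C := 2 * (-(ex E)) * m * (2 : ℝ) ^ (-(ex E - 1)) with hC
  have hbound : ∀ᶠ z in cocompact E, ‖V e f A z‖ ≤ C * ‖z‖ ^ (ex E) := by
    have h1 : ∀ᶠ z in cocompact E, 2 * R ≤ ‖z‖ :=
      tendsto_norm_cocompact_atTop.eventually (eventually_ge_atTop (2 * R))
    filter_upwards [h1] with z hz
    have hz0 : 0 < ‖z‖ := by linarith
    unfold V
    calc ‖∫ y in A, kr e f z y‖ ≤ ∫ y in A, ‖kr e f z y‖ := norm_integral_le_integral_norm _
      _ ≤ ∫ y in A, 2 * (-(ex E)) * ‖z‖ * (‖z‖ / 2) ^ (ex E - 1) := by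
          apply setIntegral_mono_on (integrableOn_kr hn he hf hA hfin z).norm (integrableOn_const hfin) hA
          intro y hy
          refine (abs_kr_le hn he hf z y).trans ?_
          have h2 : ‖z‖ / 2 ≤ ‖z - y‖ := by
            have h3 := norm_sub_norm_le z y
            have h4 := hAR y hy
            linarith
          have h5 : ‖z - y‖ ^ (ex E - 1) ≤ (‖z‖ / 2) ^ (ex E - 1) :=
            Real.rpow_le_rpow_of_nonpos (by positivity) h2 (ex_lt hn).2.2.2.1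
          gcongr
      _ = m * (2 * (-(ex E)) * ‖z‖ * (‖z‖ / 2) ^ (ex E - 1)) := by simp [hm]
      _ = C * ‖z‖ ^ (ex E) := by
          have h6 : (‖z‖ / 2) ^ (ex E - 1) = ‖z‖ ^ (ex E - 1) * (2 : ℝ) ^ (-(ex E - 1)) := by
            rw [Real.div_rpow hz0.le (by norm_num), Real.rpow_neg (by norm_num)]
            rfl
          have h7 : ‖z‖ ^ (ex E) = ‖z‖ * ‖z‖ ^ (ex E - 1) := by
            rw [mul_comm, ← Real.rpow_add_one hz0.ne']
            congr 1
            ring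
          rw [h6, h7, hC]
          ring
  have ht : Tendsto (fun z : E => C * ‖z‖ ^ (ex E)) (cocompact E) (𝓝 0) := by
    have h1 : Tendsto (fun t : ℝ => t ^ (-(-(ex E)))) atTop (𝓝 0) := tendsto_rpow_neg_atTop hex
    rw [neg_neg] at h1
    have h2 := (h1.comp (tendsto_norm_cocompact_atTop (E := E))).const_mul C
    simpa using h2
  exact squeeze_zero_norm' hbound ht

/-- near a point outside `Ω` where the rotation derivative does not vanish, `Ω` has full measure -/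
theorem full_near (hn : 3 ≤ Module.finrank ℝ E) {Ω : Set E} (hΩ : IsOpen Ω) (hfin : volume Ω ≠ ⊤)
    (hMV : MV Ω) {e f : E} (he : ‖e‖ = 1) (hf : ‖f‖ = 1) (hef : ⟪e, f⟫ = 0) {x : E}
    (hx : V e f Ω x ≠ 0) : ∃ ρ, 0 < ρ ∧ volume (ball x ρ \ Ω) = 0 := by
  have hΩm := hΩ.measurableSet
  have hVc := continuous_V hn he hf hΩm hfin
  obtain ⟨δ, hδ, hδV⟩ : ∃ δ, 0 < δ ∧ ∀ z ∈ ball x δ, 0 < V e f Ω z * V e f Ω x := by
    have h1 : Continuous fun z => V e f Ω z * V e f Ω x := by fun_prop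
    have h2 : IsOpen {z | 0 < V e f Ω z * V e f Ω x} := isOpen_lt continuous_const h1
    obtain ⟨δ, hδ, h3⟩ := Metric.isOpen_iff.mp h2 x (by
      change 0 < V e f Ω x * V e f Ω x
      exact mul_self_pos.mpr hx)
    exact ⟨δ, hδ, fun z hz => h3 hz⟩
  refine ⟨δ / 2, by positivity, ?_⟩
  set Z := ball x (δ / 2) \ Ω with hZ
  have hZm : MeasurableSet Z := measurableSet_ball.diff hΩm
  set τ := (δ / 2) / (4 * (‖x‖ + δ) + 1) with hτ
  have hτpos : 0 < τ := by positivity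
  -- points of Z stay in the ball
  have hstay : ∀ z ∈ Z, ∀ t, |t| ≤ τ → rot he hf hef t z ∈ ball x δ := by
    intro z hz t ht
    have h1 : ‖z - x‖ < δ / 2 := by
      have := hz.1
      rwa [mem_ball, dist_eq_norm] at this
    have h2 : ‖z‖ ≤ ‖x‖ + δ := by
      calc ‖z‖ = ‖x + (z - x)‖ := by congr 1; abel
        _ ≤ ‖x‖ + ‖z - x‖ := norm_add_le _ _
        _ ≤ ‖x‖ + δ := by linarith
    have h3 := norm_rot_sub_le he hf hef t z
    have h4 : 4 * |t| * ‖z‖ ≤ 4 * τ * (‖x‖ + δ) := by gcongr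
    have h5 : 4 * τ * (‖x‖ + δ) < δ / 2 := by
      rw [hτ]
      rw [show 4 * (δ / 2 / (4 * (‖x‖ + δ) + 1)) * (‖x‖ + δ)
        = (δ / 2) * (4 * (‖x‖ + δ)) / (4 * (‖x‖ + δ) + 1) by ring]
      rw [div_lt_iff₀ (by positivity)]
      nlinarith [norm_nonneg x]
    rw [mem_ball, dist_eq_norm]
    calc ‖rot he hf hef t z - x‖ = ‖(rot he hf hef t z - z) + (z - x)‖ := by congr 1; abel
      _ ≤ ‖rot he hf hef t z - z‖ + ‖z - x‖ := norm_add_le _ _
      _ < δ := by linarith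
  -- two points of Z are not on the same short arc
  have hkey : ∀ z ∈ Z, ∀ t, 0 < t → t ≤ τ → rot he hf hef t z ∉ Z := by
    intro z hz t ht0 htτ hmem
    have h1 := U_rot_sub hn he hf hef hΩm hfin z t
    rw [hMV _ hz.2, hMV _ hmem.2, LinearIsometryEquiv.norm_map, sub_self] at h1
    have h2 : 0 < (∫ s in (0 : ℝ)..t, V e f Ω (rot he hf hef s z)) * V e f Ω x := by
      rw [← intervalIntegral.integral_mul_const]
      apply intervalIntegral.intervalIntegral_pos_of_pos_on _ _ ht0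
      · apply Continuous.intervalIntegrable
        have := continuous_rot he hf hef z
        fun_prop
      · intro s hs
        apply hδV
        apply hstay z hz
        rw [abs_of_pos hs.1]
        exact hs.2.le.trans htτ
    rw [← h1, zero_mul] at h2
    exact lt_irrefl _ h2
  -- disjoint translates
  set T : ℕ → Set E := fun k => rot he hf hef (τ / ((k : ℝ) + 1)) '' Z with hT
  have hTvol : ∀ k, volume (T k) = volume Z := by
    intro k
    have h1 : T k = (rot he hf hef (τ / ((k : ℝ) + 1))).symm ⁻¹' Z := by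
      rw [hT]
      exact (rot he hf hef (τ / ((k : ℝ) + 1))).toEquiv.image_eq_preimage_symm Z
    rw [h1]
    exact ((rot he hf hef (τ / ((k : ℝ) + 1))).symm.measurePreserving).measure_preimage
      hZm.nullMeasurableSet
  have hTm : ∀ k, MeasurableSet (T k) := by
    intro k
    exact ((rot he hf hef (τ / ((k : ℝ) + 1))).toHomeomorph.measurableEmbedding.measurableSet_image).mpr hZm
  have htk : ∀ k : ℕ, 0 < τ / ((k : ℝ) + 1) ∧ τ / ((k : ℝ) + 1) ≤ τ := by
    intro k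
    constructor
    · positivity
    · apply div_le_self hτpos.le
      have : (0 : ℝ) ≤ k := by positivity
      linarith
  have hdisj : Pairwise (Function.onFun Disjoint T) := by
    have hlt : ∀ i j : ℕ, i < j → Disjoint (T i) (T j) := by
      intro i j hij
      rw [Set.disjoint_left]
      rintro w ⟨z1, hz1, rfl⟩ ⟨z2, hz2, h12⟩
      have hti := htk i
      have htj := htk j
      have h1 : τ / ((j : ℝ) + 1) < τ / ((i : ℝ) + 1) := by
        apply div_lt_div_of_pos_left hτpos (by positivity)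
        have : (i : ℝ) < j := by exact_mod_cast hij
        linarith
      have h2 : rot he hf hef (τ / ((i : ℝ) + 1) - τ / ((j : ℝ) + 1)) z1 = z2 := by
        have h3 : rot he hf hef (τ / ((i : ℝ) + 1)) z1
            = rot he hf hef (τ / ((j : ℝ) + 1)) (rot he hf hef (τ / ((i : ℝ) + 1) - τ / ((j : ℝ) + 1)) z1) := by
          rw [← rot_add]
          congr 2
          ring
        rw [h3] at h12
        exact ((rot he hf hef (τ / ((j : ℝ) + 1))).injective h12).symm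
      apply hkey z1 hz1 (τ / ((i : ℝ) + 1) - τ / ((j : ℝ) + 1)) (by linarith) (by linarith [hti.2, htj.1])
      rw [h2]
      exact hz2
    intro i j hij
    rcases lt_or_gt_of_ne hij with h | h
    · exact hlt i j h
    · exact (hlt j i h).symm
  have hsub : (⋃ k, T k) ⊆ ball x δ := by
    intro w hw
    rw [mem_iUnion] at hw
    obtain ⟨k, z, hz, rfl⟩ := hw
    apply hstay z hz
    rw [abs_of_pos (htk k).1]
    exact (htk k).2
  have h6 : volume (⋃ k, T k) = ∑' k, volume (T k) := measure_iUnion hdisj hTm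
  by_contra hne
  have h7 : ∑' k, volume (T k) = ⊤ := by
    simp_rw [hTvol]
    exact ENNReal.tsum_const_eq_top_of_ne_zero hne
  have h8 : volume (⋃ k, T k) < ⊤ := lt_of_le_of_lt (measure_mono hsub) measure_ball_lt_top
  rw [h6, h7] at h8
  exact lt_irrefl _ h8

theorem V_neg_swap (e f z : E) (A : Set E) : V f e A z = - V e f A z := by
  unfold V
  rw [← integral_neg]
  congr 1
  funext y
  unfold kr
  ring

/-- the rotation derivatives vanish -/
theorem V_eq_zero (hn : 3 ≤ Module.finrank ℝ E) {Ω : Set E} (hΩ : IsOpen Ω) (hfin : volume Ω ≠ ⊤)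
    (hMV : MV Ω) {e f : E} (he : ‖e‖ = 1) (hf : ‖f‖ = 1) (hef : ⟪e, f⟫ = 0) (x : E) :
    V e f Ω x = 0 := by
  have hnt : Nontrivial E := Module.nontrivial_of_finrank_pos (R := ℝ) (by omega)
  have hΩm := hΩ.measurableSet
  obtain ⟨R, hR, hΩR⟩ := bounded hn hΩ hfin hMV
  have hle : ∀ (e f : E) (_ : ‖e‖ = 1) (_ : ‖f‖ = 1) (_ : ⟪e, f⟫ = 0), ∀ x, V e f Ω x ≤ 0 := by
    intro e f he hf hef
    apply zero_of_local_mean (continuous_V hn he hf hΩm hfin) (V_tendsto hn he hf hΩm hfin hR hΩR)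
    intro x hx
    obtain ⟨ρ, hρ, hnull⟩ := full_near hn hΩ hfin hMV he hf hef hx
    exact ⟨ρ, hρ, V_mean hn he hf hef hΩm hfin hρ.le hnull⟩
  have h1 := hle e f he hf hef x
  have h2 := hle f e hf he (by rw [real_inner_comm]; exact hef) x
  rw [V_neg_swap] at h2
  linarith

theorem exists_orth (hn : 3 ≤ Module.finrank ℝ E) (e : E) : ∃ f : E, ‖f‖ = 1 ∧ ⟪e, f⟫ = 0 := by
  have h1 : (ℝ ∙ e)ᗮ ≠ ⊥ := by
    intro h
    have h2 : (ℝ ∙ e) = ⊤ := by
      rw [Submodule.orthogonal_eq_bot_iff] at h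
      exact h
    have h3 := finrank_span_le_card (R := ℝ) ({e} : Set E)
    rw [h2, finrank_top] at h3
    simp at h3
    omega
  obtain ⟨v, hv, hv0⟩ := Submodule.exists_mem_ne_zero_of_ne_bot h1
  refine ⟨‖v‖⁻¹ • v, ?_, ?_⟩
  · rw [norm_smul, norm_inv, norm_norm, inv_mul_cancel₀ (norm_ne_zero_iff.mpr hv0)]
  · rw [inner_smul_right, Submodule.mem_orthogonal_singleton_iff_inner_right.mp hv, mul_zero]

/-- two points of the same norm are joined by a rotation -/
theorem exists_rot (hn : 3 ≤ Module.finrank ℝ E) {x x' : E} (hxx : ‖x‖ = ‖x'‖) (hx : x ≠ 0) :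
    ∃ (e f : E) (he : ‖e‖ = 1) (hf : ‖f‖ = 1) (hef : ⟪e, f⟫ = 0) (t : ℝ), rot he hf hef t x = x' := by
  obtain ⟨e, he, hxe⟩ := exists_unit_smul x hx
  have hr : 0 < ‖x‖ := norm_pos_iff.mpr hx
  obtain ⟨f, hf, hef, hx'⟩ : ∃ f : E, ‖f‖ = 1 ∧ ⟪e, f⟫ = 0 ∧ ∃ b : ℝ, x' = ⟪e, x'⟫ • e + b • f := by
    by_cases h0 : x' - ⟪e, x'⟫ • e = 0
    · obtain ⟨f, hf, hef⟩ := exists_orth hn e
      refine ⟨f, hf, hef, 0, ?_⟩
      rw [zero_smul, add_zero]
      exact sub_eq_zero.mp h0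
    · have hn0 : ‖x' - ⟪e, x'⟫ • e‖ ≠ 0 := norm_ne_zero_iff.mpr h0
      refine ⟨‖x' - ⟪e, x'⟫ • e‖⁻¹ • (x' - ⟪e, x'⟫ • e), ?_, ?_, ‖x' - ⟪e, x'⟫ • e‖, ?_⟩
      · rw [norm_smul, norm_inv, norm_norm, inv_mul_cancel₀ hn0]
      · rw [inner_smul_right, inner_sub_right, inner_smul_right, real_inner_self_eq_norm_sq, he]
        ring
      · rw [smul_smul, mul_inv_cancel₀ hn0, one_smul]
        abel
  obtain ⟨b, hb⟩ := hx'
  set a := ⟪e, x'⟫ with ha
  have hee : ⟪e, e⟫ = 1 := by rw [real_inner_self_eq_norm_sq, he]; norm_num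
  have hff : ⟪f, f⟫ = 1 := by rw [real_inner_self_eq_norm_sq, hf]; norm_num
  have hfe : ⟪f, e⟫ = 0 := by rw [real_inner_comm]; exact hef
  have hab : a ^ 2 + b ^ 2 = ‖x‖ ^ 2 := by
    rw [hxx, ← real_inner_self_eq_norm_sq]
    have h1 : ⟪x', x'⟫ = ⟪a • e + b • f, a • e + b • f⟫ := by rw [← hb]
    rw [h1]
    simp only [inner_add_left, inner_add_right, inner_smul_left, inner_smul_right, hee, hff, hef, hfe]
    simp
    ring
  have hab1 : (a / ‖x‖) ^ 2 + (b / ‖x‖) ^ 2 = 1 := by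
    field_simp
    linarith
  obtain ⟨t, ht1, ht2⟩ : ∃ t : ℝ, Real.cos t = a / ‖x‖ ∧ Real.sin t = b / ‖x‖ := by
    set c : ℂ := ⟨a / ‖x‖, b / ‖x‖⟩ with hc
    have hcn : ‖c‖ = 1 := by
      rw [Complex.norm_eq_sqrt_sq_add_sq]
      simp only [hc]
      rw [hab1, Real.sqrt_one]
    refine ⟨Complex.arg c, ?_, ?_⟩
    · have hc0 : c ≠ 0 := by
        intro h; rw [h, norm_zero] at hcn; exact zero_ne_one hcn
      rw [Complex.cos_arg hc0, hcn, div_one]
    · rw [Complex.sin_arg, hcn, div_one]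
  refine ⟨e, f, he, hf, hef, t, ?_⟩
  rw [rot_apply, rotLin_apply]
  have h2 : ⟪e, x⟫ = ‖x‖ := by
    conv_lhs => rw [hxe]
    rw [inner_smul_right, hee, mul_one]
  have h3 : ⟪f, x⟫ = 0 := by
    conv_lhs => rw [hxe]
    rw [inner_smul_right, hfe, mul_zero]
  rw [h2, h3, ht1, ht2, hb]
  have h4 : x + ((a / ‖x‖ - 1) * ‖x‖ - b / ‖x‖ * 0) • e + (b / ‖x‖ * ‖x‖ + (a / ‖x‖ - 1) * 0) • f
      = ‖x‖ • e + (a - ‖x‖) • e + b • f := by
    congr 1
    · congr 1
      congr 1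
      field_simp
      ring
    · congr 1
      field_simp
      ring
  rw [h4]
  module

/-- the potential is radial -/
theorem U_radial (hn : 3 ≤ Module.finrank ℝ E) {Ω : Set E} (hΩ : IsOpen Ω) (hfin : volume Ω ≠ ⊤)
    (hMV : MV Ω) {x x' : E} (hxx : ‖x‖ = ‖x'‖) : U Ω x = U Ω x' := by
  by_cases hx : x = 0
  · subst hx
    rw [norm_zero] at hxx
    rw [norm_eq_zero.mp hxx.symm]
  · obtain ⟨e, f, he, hf, hef, t, ht⟩ := exists_rot hn hxx hx
    have h1 := U_rot_sub hn he hf hef hΩ.measurableSet hfin x t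
    have h2 : ∀ s, V e f Ω (rot he hf hef s x) = 0 := fun s => V_eq_zero hn hΩ hfin hMV he hf hef _
    simp_rw [h2] at h1
    rw [ht, intervalIntegral.integral_zero] at h1
    linarith

theorem U_eq_G (hn : 3 ≤ Module.finrank ℝ E) {Ω : Set E} (hΩ : IsOpen Ω) (hfin : volume Ω ≠ ⊤)
    (hMV : MV Ω) (x : E) : U Ω x = G Ω ‖x‖ := by
  have hnt : Nontrivial E := Module.nontrivial_of_finrank_pos (R := ℝ) (by omega)
  by_cases hx : x = 0
  · subst hx
    unfold U G
    congr 1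
    funext y
    rw [zero_sub, norm_neg, norm_zero, max_eq_left (norm_nonneg y)]
  · have hr : 0 < ‖x‖ := norm_pos_iff.mpr hx
    have h1 := sphere_mean hn hΩ.measurableSet hfin hr
    have h2 : ∫ θ : sphere (0 : E) 1, U Ω (‖x‖ • (θ : E)) ∂(sph E) = ∫ θ : sphere (0 : E) 1, U Ω x ∂(sph E) := by
      congr 1
      funext θ
      apply U_radial hn hΩ hfin hMV
      rw [norm_smul, norm_norm]
      simp
    rw [h2, integral_const, smul_eq_mul] at h1
    exact mul_left_cancel₀ (sph_univ_pos hn).ne' h1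

end Pool.Agent.Helper41.MVC
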