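import Mathlib
import Pool.Agent.Helper41.MVC.Rad

set_option autoImplicit false
set_option linter.unusedSectionVars false

namespace Pool.Agent.Helper41.MVC

open MeasureTheory Metric Set Filter Topology
open scoped RealInnerProductSpace Pointwise ENNReal

variable {E : Type*} [NormedAddCommGroup E] [InnerProductSpace ℝ E] [FiniteDimensional ℝ E]
  [MeasurableSpace E] [BorelSpace E]

theorem open_norm_lt [Nontrivial E] {Ω : Set E} (hΩ : IsOpen Ω) {R : ℝ} (h : ∀ y ∈ Ω, ‖y‖ ≤ R) :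
    ∀ y ∈ Ω, ‖y‖ < R := by
  intro y hy
  obtain ⟨ρ, hρ, hs⟩ := Metric.isOpen_iff.mp hΩ y hy
  obtain ⟨w, hw, hwn⟩ : ∃ w ∈ ball y ρ, ‖y‖ < ‖w‖ := by
    by_cases h0 : y = 0
    · obtain ⟨u, hu⟩ := exists_norm_eq E (show (0 : ℝ) ≤ ρ / 2 by positivity)
      refine ⟨u, ?_, ?_⟩
      · rw [h0, mem_ball_zero_iff, hu]; linarith
      · rw [h0, norm_zero, hu]; positivity
    · have hn0 : 0 < ‖y‖ := norm_pos_iff.mpr h0
      refine ⟨(1 + ρ / (2 * ‖y‖)) • y, ?_, ?_⟩
      · rw [mem_ball, dist_eq_norm]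
        have : (1 + ρ / (2 * ‖y‖)) • y - y = (ρ / (2 * ‖y‖)) • y := by
          rw [add_smul, one_smul]; abel
        rw [this, norm_smul, Real.norm_of_nonneg (by positivity)]
        have : ρ / (2 * ‖y‖) * ‖y‖ = ρ / 2 := by field_simp
        rw [this]; linarith
      · rw [norm_smul, Real.norm_of_nonneg (by positivity)]
        have : (1 + ρ / (2 * ‖y‖)) * ‖y‖ = ‖y‖ + ρ / 2 := by field_simp
        rw [this]; linarith
  exact lt_of_lt_of_le hwn (h w (hs hw))

theorem open_norm_gt {Ω : Set E} (hΩ : IsOpen Ω) {r : ℝ} (hr : 0 < r) (h : ∀ y ∈ Ω, r ≤ ‖y‖) :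
    ∀ y ∈ Ω, r < ‖y‖ := by
  intro y hy
  obtain ⟨ρ, hρ, hs⟩ := Metric.isOpen_iff.mp hΩ y hy
  have hn0 : 0 < ‖y‖ := lt_of_lt_of_le hr (h y hy)
  set c := min (ρ / (2 * ‖y‖)) (1 / 2) with hc
  have hc0 : 0 < c := lt_min (by positivity) (by norm_num)
  have hc1 : c ≤ 1 / 2 := min_le_right _ _
  have hc2 : c * ‖y‖ ≤ ρ / 2 := by
    have : c ≤ ρ / (2 * ‖y‖) := min_le_left _ _
    calc c * ‖y‖ ≤ ρ / (2 * ‖y‖) * ‖y‖ := by gcongr
      _ = ρ / 2 := by field_simp
  have hw : (1 - c) • y ∈ ball y ρ := by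
    rw [mem_ball, dist_eq_norm]
    have : (1 - c) • y - y = -(c • y) := by
      rw [sub_smul, one_smul]; abel
    rw [this, norm_neg, norm_smul, Real.norm_of_nonneg hc0.le]
    linarith
  have h1 := h _ (hs hw)
  rw [norm_smul, Real.norm_of_nonneg (by linarith)] at h1
  nlinarith

theorem G_strict (hn : 3 ≤ Module.finrank ℝ E) {A : Set E} (hA : IsOpen A)
    (hfin : volume A ≠ ⊤) {ρ ρ' : ℝ} (hρ : 0 ≤ ρ) (hρρ : ρ < ρ') (h : G A ρ ≤ G A ρ') :
    ∀ y ∈ A, ρ' ≤ ‖y‖ := by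
  have hnt : Nontrivial E := Module.nontrivial_of_finrank_pos (R := ℝ) (by omega)
  by_contra hcon
  push Not at hcon
  obtain ⟨y0, hy0, hy0ρ⟩ := hcon
  have hAm := hA.measurableSet
  have i1 := integrableOn_G hn hAm hfin hρ
  have i2 := integrableOn_G hn hAm hfin (hρ.trans hρρ.le)
  have i3 : IntegrableOn (fun y : E => (max ‖y‖ ρ) ^ (ex E) - (max ‖y‖ ρ') ^ (ex E)) A := i1.sub i2
  have hz : ∫ y in A, ((max ‖y‖ ρ) ^ (ex E) - (max ‖y‖ ρ') ^ (ex E)) ≤ 0 := by
    rw [integral_sub i1 i2]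
    unfold G at h
    linarith
  have hne0 : ∀ᵐ y ∂(volume.restrict A), y ≠ (0 : E) := by
    apply ae_restrict_of_ae
    rw [ae_iff]
    simp
  have hp : 0 < ∫ y in A, ((max ‖y‖ ρ) ^ (ex E) - (max ‖y‖ ρ') ^ (ex E)) := by
    rw [setIntegral_pos_iff_support_of_nonneg_ae _ i3]
    · have hopen : IsOpen (A ∩ {y : E | ‖y‖ < ρ'}) := hA.inter (isOpen_lt continuous_norm continuous_const)
      have h1 : 0 < volume ((A ∩ {y : E | ‖y‖ < ρ'}) \ {0}) := by
        rw [measure_sdiff_null (measure_singleton _)]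
        exact hopen.measure_pos volume ⟨y0, hy0, hy0ρ⟩
      refine lt_of_lt_of_le h1 (measure_mono ?_)
      rintro y ⟨⟨hyA, hyρ⟩, hy0⟩
      refine ⟨?_, hyA⟩
      have hypos : 0 < ‖y‖ := norm_pos_iff.mpr hy0
      have hyρ' : ‖y‖ < ρ' := hyρ
      rw [Function.mem_support]
      have hlt : max ‖y‖ ρ < ρ' := max_lt hyρ' hρρ
      have : ρ' ^ (ex E) < (max ‖y‖ ρ) ^ (ex E) :=
        Real.rpow_lt_rpow_of_neg (lt_max_of_lt_left hypos) hlt (ex_lt hn).2.2.2.2
      rw [max_eq_right hyρ'.le]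
      linarith
    · filter_upwards [hne0] with y hy
      have hypos : 0 < ‖y‖ := norm_pos_iff.mpr hy
      apply sub_nonneg.mpr
      apply Real.rpow_le_rpow_of_nonpos (lt_max_of_lt_left hypos) _ (ex_lt hn).2.2.1
      exact max_le_max le_rfl hρρ.le
  linarith

theorem U_congr {A B : Set E} (h : A =ᵐ[volume] B) (x : E) : U A x = U B x := by
  unfold U
  exact setIntegral_congr_set h

theorem sphere_null [Nontrivial E] (s : ℝ) {K : Set E} (hK : K ⊆ sphere 0 s) :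
    (volume : Measure E) K = 0 :=
  measure_mono_null hK (Measure.addHaar_sphere _ _ _)

/-- spherical shells -/
def shell (r₁ r₂ : ℝ) : Set E := {x | r₁ < ‖x‖ ∧ ‖x‖ < r₂}

theorem isOpen_shell (r₁ r₂ : ℝ) : IsOpen (shell r₁ r₂ : Set E) :=
  (isOpen_lt continuous_const continuous_norm).inter (isOpen_lt continuous_norm continuous_const)

theorem shell_ae [Nontrivial E] (r₁ r₂ : ℝ) :
    (shell r₁ r₂ : Set E) =ᵐ[volume] (ball (0 : E) r₂ \ ball 0 r₁ : Set E) := by
  have h0 : ∀ᵐ x : E, ‖x‖ ≠ r₁ := by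
    rw [ae_iff]
    have : {x : E | ¬ ‖x‖ ≠ r₁} = sphere 0 r₁ := by ext y; simp
    rw [this]
    exact Measure.addHaar_sphere _ _ _
  rw [Filter.eventuallyEq_set]
  filter_upwards [h0] with x hx
  simp only [shell, Set.mem_sdiff, mem_ball_zero_iff, not_lt]
  change (r₁ < ‖x‖ ∧ ‖x‖ < r₂) ↔ _
  constructor
  · rintro ⟨h1, h2⟩
    exact ⟨h2, h1.le⟩
  · rintro ⟨h1, h2⟩
    exact ⟨lt_of_le_of_ne h2 (Ne.symm hx), h1⟩

theorem U_shell (hn : 3 ≤ Module.finrank ℝ E) {r₁ r₂ : ℝ} (h : r₁ ≤ r₂) (x : E) :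
    U (shell r₁ r₂) x = U (ball 0 r₂) x - U (ball 0 r₁) x := by
  have hnt : Nontrivial E := Module.nontrivial_of_finrank_pos (R := ℝ) (by omega)
  rw [U_congr (shell_ae r₁ r₂)]
  unfold U
  rw [setIntegral_sdiff measurableSet_ball _ (ball_subset_ball h)]
  exact integrableOn_kernel (by omega) (ex_lt hn).1 (ex_lt hn).2.2.1 measurableSet_ball
    measure_ball_lt_top.ne x

theorem vol_shell (hn : 3 ≤ Module.finrank ℝ E) {r₁ r₂ : ℝ} (h0 : 0 ≤ r₁) (h : r₁ ≤ r₂) :
    (volume : Measure E).real (shell r₁ r₂)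
      = (r₂ ^ Module.finrank ℝ E - r₁ ^ Module.finrank ℝ E) * (volume : Measure E).real (ball 0 1) := by
  have hnt : Nontrivial E := Module.nontrivial_of_finrank_pos (R := ℝ) (by omega)
  have h1 : (volume : Measure E).real (shell r₁ r₂) = (volume : Measure E).real (ball 0 r₂ \ ball 0 r₁) := by
    rw [Measure.real, Measure.real, measure_congr (shell_ae r₁ r₂)]
  rw [h1, measureReal_sdiff (ball_subset_ball h) measurableSet_ball measure_ball_lt_top.ne,
    volume_ball hn (h0.trans h), volume_ball hn h0]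
  ring

/-- the function `t ↦ n t² - 2 tⁿ` -/
noncomputable def hh (n : ℕ) (t : ℝ) : ℝ := n * t ^ 2 - 2 * t ^ n

theorem hasDerivAt_hh {n : ℕ} (hn : 3 ≤ n) (t : ℝ) :
    HasDerivAt (hh n) (2 * n * t * (1 - t ^ (n - 2))) t := by
  unfold hh
  have h1 := ((hasDerivAt_pow 2 t).const_mul (n : ℝ)).sub ((hasDerivAt_pow n t).const_mul 2)
  refine h1.congr_deriv ?_
  have h2 : t ^ (n - 1) = t * t ^ (n - 2) := by
    rw [← pow_succ']
    congr 1
    omega
  rw [h2]
  push_cast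
  ring

theorem hh_strictMono {n : ℕ} (hn : 3 ≤ n) : StrictMonoOn (hh n) (Icc 0 1) := by
  have hn0 : (0 : ℝ) < n := by exact_mod_cast (by omega : 0 < n)
  apply strictMonoOn_of_deriv_pos (convex_Icc 0 1)
  · exact fun t _ => (hasDerivAt_hh hn t).continuousAt.continuousWithinAt
  · intro t ht
    rw [interior_Icc] at ht
    rw [(hasDerivAt_hh hn t).deriv]
    have h1 : t ^ (n - 2) < 1 := pow_lt_one₀ ht.1.le ht.2 (by omega)
    have h2 : 0 < 1 - t ^ (n - 2) := by linarith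
    have := ht.1
    positivity

theorem hh_strictAnti {n : ℕ} (hn : 3 ≤ n) : StrictAntiOn (hh n) (Ici 1) := by
  have hn0 : (0 : ℝ) < n := by exact_mod_cast (by omega : 0 < n)
  apply strictAntiOn_of_deriv_neg (convex_Ici 1)
  · exact fun t _ => (hasDerivAt_hh hn t).continuousAt.continuousWithinAt
  · intro t ht
    rw [interior_Ici] at ht
    have ht1 : 1 < t := ht
    rw [(hasDerivAt_hh hn t).deriv]
    have h1 : 1 < t ^ (n - 2) := one_lt_pow₀ ht1 (by omega)
    have h2 : 0 < t ^ (n - 2) - 1 := by linarith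
    have h3 : 0 < 2 * n * t * (t ^ (n - 2) - 1) := by
      have : 0 < t := by linarith
      positivity
    linarith

theorem hh_one {n : ℕ} : hh n 1 = n - 2 := by
  unfold hh
  simp

/-- direct part, balls -/
theorem MV_ball (hn : 3 ≤ Module.finrank ℝ E) {r : ℝ} (hr : 1 ≤ r) {K : Set E}
    (hK : ∀ x ∈ K, ((Module.finrank ℝ E : ℝ) - 2) * ‖x‖ ^ 2 = hh (Module.finrank ℝ E) r) :
    MV (ball (0 : E) r \ K) := by
  have hnt : Nontrivial E := Module.nontrivial_of_finrank_pos (R := ℝ) (by omega)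
  have hn3 : (3 : ℝ) ≤ Module.finrank ℝ E := by exact_mod_cast hn
  have hn2 : (0 : ℝ) < (Module.finrank ℝ E : ℝ) - 2 := by linarith
  have hr0 : 0 < r := by linarith
  have hKs : K ⊆ sphere 0 (Real.sqrt (hh (Module.finrank ℝ E) r / ((Module.finrank ℝ E : ℝ) - 2))) := by
    intro x hx
    rw [mem_sphere_iff_norm, sub_zero, eq_comm]
    have h1 := hK x hx
    have h2 : hh (Module.finrank ℝ E) r / ((Module.finrank ℝ E : ℝ) - 2) = ‖x‖ ^ 2 := by
      rw [← h1]; field_simp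
    rw [h2, Real.sqrt_sq (norm_nonneg x)]
  have hK0 := sphere_null _ hKs
  have hae : (ball (0 : E) r \ K : Set E) =ᵐ[volume] ball (0 : E) r := sdiff_null_ae_eq_self hK0
  intro x hx
  rw [U_congr hae, Measure.real, measure_congr hae, ← Measure.real]
  by_cases hxb : x ∈ ball (0 : E) r
  · have hxK : x ∈ K := by
      by_contra h
      exact hx ⟨hxb, h⟩
    have h1 := hK x hxK
    have hle : hh (Module.finrank ℝ E) r ≤ hh (Module.finrank ℝ E) 1 :=
      (hh_strictAnti hn).antitoneOn (show (1 : ℝ) ∈ Ici 1 from le_refl (1 : ℝ)) hr hr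
    rw [hh_one] at hle
    have hx1 : ‖x‖ ≤ 1 := by
      have h2 : ‖x‖ ^ 2 ≤ 1 := by
        by_contra hc
        push Not at hc
        nlinarith
      nlinarith [norm_nonneg x]
    rw [max_eq_left hx1, Real.one_rpow, mul_one, U_ball_inner hn hr0 (by
      rw [sub_zero]; exact (mem_ball_zero_iff.mp hxb).le), sub_zero, h1]
    unfold hh
    have : (0 : ℝ) < r ^ Module.finrank ℝ E := by positivity
    field_simp
    ring
  · have hxr : r ≤ ‖x‖ := by simpa using hxb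
    rw [max_eq_right (hr.trans hxr), U_ball_outer hn hr0.le (by rwa [sub_zero]), sub_zero]

/-- direct part, shells -/
theorem MV_shell (hn : 3 ≤ Module.finrank ℝ E) {r₁ r₂ : ℝ} (h0 : 0 < r₁) (h12 : r₁ < r₂)
    (hrel : hh (Module.finrank ℝ E) r₁ = hh (Module.finrank ℝ E) r₂) :
    MV (shell r₁ r₂ : Set E) := by
  have hnt : Nontrivial E := Module.nontrivial_of_finrank_pos (R := ℝ) (by omega)
  have hr1 : r₁ < 1 := by
    by_contra hc
    push Not at hc
    have := hh_strictAnti hn (show r₁ ∈ Ici 1 from hc) (show r₂ ∈ Ici 1 from hc.trans h12.le) h12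
    linarith
  have hr2 : 1 < r₂ := by
    by_contra hc
    push Not at hc
    have := hh_strictMono hn (show r₁ ∈ Icc 0 1 from ⟨h0.le, hr1.le⟩)
      (show r₂ ∈ Icc 0 1 from ⟨(h0.trans h12).le, hc⟩) h12
    linarith
  have hvol := vol_shell hn h0.le h12.le
  have hv1 : 0 < (volume : Measure E).real (ball 0 1) := volume_ball_pos' one_pos 0
  intro x hx
  have hx' : ‖x‖ ≤ r₁ ∨ r₂ ≤ ‖x‖ := by
    by_contra hc
    push Not at hc
    exact hx hc
  rw [U_shell hn h12.le, hvol]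
  have hr2pos : 0 < r₂ := h0.trans h12
  rcases hx' with h | h
  · rw [max_eq_left (h.trans hr1.le), Real.one_rpow, mul_one,
      U_ball_inner hn hr2pos (by rw [sub_zero]; exact h.trans h12.le),
      U_ball_inner hn h0 (by rw [sub_zero]; exact h), sub_zero, volume_ball hn hr2pos.le,
      volume_ball hn h0.le]
    unfold hh at hrel
    have e1 : (r₂ ^ Module.finrank ℝ E - r₁ ^ Module.finrank ℝ E) =
        (Module.finrank ℝ E * r₂ ^ 2 - Module.finrank ℝ E * r₁ ^ 2) / 2 := by linarith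
    rw [e1]
    field_simp
    ring
  · rw [max_eq_right (hr2.le.trans h), U_ball_outer hn hr2pos.le (by rwa [sub_zero]),
      U_ball_outer hn h0.le (by rw [sub_zero]; exact h12.le.trans h), sub_zero,
      volume_ball hn hr2pos.le, volume_ball hn h0.le]
    ring

/-- classification -/
theorem classify (hn : 3 ≤ Module.finrank ℝ E) {Ω : Set E} (hΩ : IsOpen Ω) (hne : Ω.Nonempty)
    (hfin : volume Ω ≠ ⊤) (hMV : MV Ω) :
    (∃ (r : ℝ) (K : Set E), 1 ≤ r ∧ IsClosed K ∧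
      (∀ x ∈ K, ((Module.finrank ℝ E : ℝ) - 2) * ‖x‖ ^ 2 = hh (Module.finrank ℝ E) r) ∧
      Ω = ball 0 r \ K) ∨
    (∃ r₁ r₂ : ℝ, 0 < r₁ ∧ r₁ < r₂ ∧ hh (Module.finrank ℝ E) r₁ = hh (Module.finrank ℝ E) r₂ ∧
      Ω = shell r₁ r₂) := by
  have hnt : Nontrivial E := Module.nontrivial_of_finrank_pos (R := ℝ) (by omega)
  have hn3 : (3 : ℝ) ≤ Module.finrank ℝ E := by exact_mod_cast hn
  obtain ⟨R, hR, hΩR⟩ := bounded hn hΩ hfin hMV
  have hm : 0 < (volume : Measure E).real Ω :=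
    ENNReal.toReal_pos (hΩ.measure_pos volume hne).ne' hfin
  have hv1 : 0 < (volume : Measure E).real (ball (0 : E) 1) := volume_ball_pos' one_pos 0
  set m := (volume : Measure E).real Ω with hmdef
  have hex0 := (ex_lt hn).2.2.2.2
  have hG : ∀ x, x ∉ Ω → G Ω ‖x‖ = m * (max 1 ‖x‖) ^ (ex E) := by
    intro x hx
    rw [← U_eq_G hn hΩ hfin hMV]
    exact hMV x hx
  -- outer radius
  have hbdd : BddAbove (norm '' Ω) := ⟨R, by rintro _ ⟨y, hy, rfl⟩; exact hΩR y hy⟩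
  have hbdd' : BddBelow (norm '' Ω) := ⟨0, by rintro _ ⟨y, hy, rfl⟩; exact norm_nonneg y⟩
  have hne' : (norm '' Ω).Nonempty := hne.image _
  set r₂ := sSup (norm '' Ω) with hr₂
  have hle2 : ∀ y ∈ Ω, ‖y‖ ≤ r₂ := fun y hy => le_csSup hbdd ⟨y, hy, rfl⟩
  have hlt2 := open_norm_lt hΩ hle2
  have hr2n : 0 ≤ r₂ := by
    obtain ⟨y, hy⟩ := hne
    exact (norm_nonneg y).trans (hle2 y hy)
  have hr21 : 1 ≤ r₂ := by
    by_contra hc
    push Not at hc
    obtain ⟨x, hx⟩ := exists_norm_eq E (show (0 : ℝ) ≤ (r₂ + 1) / 2 by linarith)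
    have hxΩ : x ∉ Ω := by
      intro h
      have := hle2 x h
      linarith
    have h1 := hG x hxΩ
    rw [hx, max_eq_left (by linarith), Real.one_rpow, mul_one] at h1
    have h2 : G Ω ((r₂ + 1) / 2) = m * ((r₂ + 1) / 2) ^ (ex E) := by
      unfold G
      have : ∫ y in Ω, (max ‖y‖ ((r₂ + 1) / 2)) ^ (ex E) = ∫ y in Ω, ((r₂ + 1) / 2) ^ (ex E) := by
        apply setIntegral_congr_fun hΩ.measurableSet
        intro y hy
        have := hle2 y hy
        simp only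
        rw [max_eq_right (by linarith)]
      rw [this]
      simp [hmdef]
    rw [h2] at h1
    have h3 : 1 < ((r₂ + 1) / 2) ^ (ex E) :=
      Real.one_lt_rpow_of_pos_of_lt_one_of_neg (by linarith) (by linarith) hex0
    nlinarith
  have hr2pos : 0 < r₂ := by linarith
  have hmid : ∀ x : E, 1 ≤ ‖x‖ → ‖x‖ < r₂ → x ∈ Ω := by
    intro x h1 h2
    by_contra hx
    have h3 := hG x hx
    rw [max_eq_right h1] at h3
    have h4 := G_eq hn hΩ hfin (by linarith : 0 < ‖x‖) h3.ge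
    have h5 : r₂ ≤ ‖x‖ := csSup_le hne' (by rintro _ ⟨y, hy, rfl⟩; exact h4 y hy)
    linarith
  have hGin : ∀ x, x ∉ Ω → ‖x‖ < 1 → G Ω ‖x‖ = m := by
    intro x hx h1
    rw [hG x hx, max_eq_left h1.le, Real.one_rpow, mul_one]
  by_cases hcase : ∃ x x' : E, x ∉ Ω ∧ ‖x‖ < 1 ∧ x' ∉ Ω ∧ ‖x'‖ < 1 ∧ ‖x‖ < ‖x'‖
  · -- shell
    right
    obtain ⟨x, x', hx, hx1, hx', hx1', hxx⟩ := hcase
    have h1 : ∀ y ∈ Ω, ‖x'‖ ≤ ‖y‖ := by
      apply G_strict hn hΩ hfin (norm_nonneg x) hxx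
      rw [hGin x hx hx1, hGin x' hx' hx1']
    set r₁ := sInf (norm '' Ω) with hr₁
    have hge1 : ∀ y ∈ Ω, r₁ ≤ ‖y‖ := fun y hy => csInf_le hbdd' ⟨y, hy, rfl⟩
    have hx'r : ‖x'‖ ≤ r₁ := le_csInf hne' (by rintro _ ⟨y, hy, rfl⟩; exact h1 y hy)
    have hr1pos : 0 < r₁ := lt_of_lt_of_le (lt_of_le_of_lt (norm_nonneg x) hxx) hx'r
    have hgt1 := open_norm_gt hΩ hr1pos hge1
    have h12 : r₁ < r₂ := by
      obtain ⟨y, hy⟩ := hne
      exact (hgt1 y hy).trans (hlt2 y hy)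
    have hΩeq : Ω = shell r₁ r₂ := by
      ext y
      constructor
      · intro hy
        exact ⟨hgt1 y hy, hlt2 y hy⟩
      · rintro ⟨hy1, hy2⟩
        by_contra hyΩ
        rcases le_or_gt 1 ‖y‖ with h | h
        · exact hyΩ (hmid y h hy2)
        · have h2 : ∀ z ∈ Ω, ‖y‖ ≤ ‖z‖ := by
            apply G_strict hn hΩ hfin (norm_nonneg x') (lt_of_le_of_lt hx'r hy1)
            rw [hGin x' hx' hx1', hGin y hyΩ h]
          have h3 : ‖y‖ ≤ r₁ := le_csInf hne' (by rintro _ ⟨z, hz, rfl⟩; exact h2 z hz)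
          linarith
    refine ⟨r₁, r₂, hr1pos, h12, ?_, hΩeq⟩
    have h4 := hMV x' hx'
    rw [max_eq_left hx1'.le, Real.one_rpow, mul_one] at h4
    rw [hΩeq, U_shell hn h12.le, vol_shell hn hr1pos.le h12.le,
      U_ball_inner hn hr2pos (by rw [sub_zero]; exact hx'r.trans h12.le),
      U_ball_inner hn hr1pos (by rw [sub_zero]; exact hx'r), sub_zero, volume_ball hn hr2pos.le,
      volume_ball hn hr1pos.le] at h4
    have hp1 : (0 : ℝ) < r₁ ^ Module.finrank ℝ E := by positivity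
    have hp2 : (0 : ℝ) < r₂ ^ Module.finrank ℝ E := by positivity
    have h5 : r₂ ^ Module.finrank ℝ E * (volume : Measure E).real (ball 0 1) *
          ((Module.finrank ℝ E * r₂ ^ 2 - (Module.finrank ℝ E - 2) * ‖x'‖ ^ 2) / (2 * r₂ ^ Module.finrank ℝ E))
        - r₁ ^ Module.finrank ℝ E * (volume : Measure E).real (ball 0 1) *
          ((Module.finrank ℝ E * r₁ ^ 2 - (Module.finrank ℝ E - 2) * ‖x'‖ ^ 2) / (2 * r₁ ^ Module.finrank ℝ E))
        = (volume : Measure E).real (ball (0 : E) 1) *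
          ((Module.finrank ℝ E * r₂ ^ 2 - Module.finrank ℝ E * r₁ ^ 2) / 2) := by
      field_simp
      ring
    rw [h5, mul_comm (r₂ ^ _ - r₁ ^ _)] at h4
    have h6 := mul_left_cancel₀ hv1.ne' h4
    unfold hh
    linarith
  · -- ball
    left
    push Not at hcase
    have hsame : ∀ x x' : E, x ∉ Ω → ‖x‖ < 1 → x' ∉ Ω → ‖x'‖ < 1 → ‖x‖ = ‖x'‖ := by
      intro x x' hx hx1 hx' hx1'
      exact le_antisymm (hcase x' x hx' hx1' hx hx1) (hcase x x' hx hx1 hx' hx1')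
    by_cases hZ : ∃ x0 : E, x0 ∉ Ω ∧ ‖x0‖ < 1
    · obtain ⟨x0, hx0, hx01⟩ := hZ
      have hKs : Ωᶜ ∩ sphere (0 : E) ‖x0‖ ⊆ sphere 0 ‖x0‖ := inter_subset_right
      have hK0 := sphere_null _ hKs
      have hΩeq : Ω = ball 0 r₂ \ (Ωᶜ ∩ sphere (0 : E) ‖x0‖) := by
        ext y
        constructor
        · intro hy
          exact ⟨mem_ball_zero_iff.mpr (hlt2 y hy), fun h => h.1 hy⟩
        · rintro ⟨hy1, hy2⟩
          by_contra hyΩ
          rw [mem_ball_zero_iff] at hy1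
          rcases le_or_gt 1 ‖y‖ with h | h
          · exact hyΩ (hmid y h hy1)
          · apply hy2
            refine ⟨hyΩ, ?_⟩
            rw [mem_sphere_iff_norm, sub_zero]
            exact hsame y x0 hyΩ h hx0 hx01
      have hae : Ω =ᵐ[volume] ball (0 : E) r₂ := by
        have h1 := sdiff_null_ae_eq_self (s := ball (0 : E) r₂) hK0
        rwa [← hΩeq] at h1
      refine ⟨r₂, Ωᶜ ∩ sphere (0 : E) ‖x0‖, hr21, hΩ.isClosed_compl.inter isClosed_sphere, ?_, hΩeq⟩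
      rintro x ⟨hxΩ, hxs⟩
      have hxn : ‖x‖ = ‖x0‖ := by rwa [mem_sphere_iff_norm, sub_zero] at hxs
      have h2 := hMV x hxΩ
      rw [max_eq_left (by rw [hxn]; exact hx01.le), Real.one_rpow, mul_one, U_congr hae, Measure.real,
        measure_congr hae, ← Measure.real, U_ball_inner hn hr2pos (by
          rw [sub_zero, hxn]; exact (hx01.trans_le hr21).le), sub_zero] at h2
      have hvr : 0 < (volume : Measure E).real (ball (0 : E) r₂) := volume_ball_pos' hr2pos 0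
      have h3 := mul_left_cancel₀ hvr.ne' (h2.trans (mul_one _).symm)
      have hp2 : (0 : ℝ) < 2 * r₂ ^ Module.finrank ℝ E := by positivity
      rw [div_eq_one_iff_eq hp2.ne'] at h3
      unfold hh
      linarith
    · push Not at hZ
      refine ⟨r₂, ∅, hr21, isClosed_empty, fun x hx => hx.elim, ?_⟩
      rw [Set.sdiff_empty]
      ext y
      constructor
      · intro hy
        exact mem_ball_zero_iff.mpr (hlt2 y hy)
      · intro hy
        rw [mem_ball_zero_iff] at hy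
        by_contra hyΩ
        exact hyΩ (hmid y (hZ y hyΩ) hy)

end Pool.Agent.Helper41.MVC
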