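import Mathlib
import Pool.Agent.Helper41.MVC.Class

set_option autoImplicit false
set_option linter.unusedSectionVars false

namespace Pool.Agent.Helper41.MVC

open MeasureTheory Metric Set Filter Topology
open scoped RealInnerProductSpace Pointwise ENNReal

variable {E : Type*} [NormedAddCommGroup E] [InnerProductSpace ℝ E] [FiniteDimensional ℝ E]
  [MeasurableSpace E] [BorelSpace E]

theorem sph_singleton (hn : 3 ≤ Module.finrank ℝ E) (x : sphere (0 : E) 1) : (sph E) {x} = 0 := by
  have hnt : Nontrivial E := Module.nontrivial_of_finrank_pos (R := ℝ) (by omega)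
  rw [Measure.toSphere_apply' _ (measurableSet_singleton x)]
  have h1 : Ioo (0 : ℝ) 1 • ((↑) '' ({x} : Set (sphere (0 : E) 1)) : Set E) ⊆ ((ℝ ∙ (x : E) : Submodule ℝ E) : Set E) := by
    rintro _ ⟨t, _, _, ⟨y, hy, rfl⟩, rfl⟩
    rw [mem_singleton_iff] at hy
    rw [hy]
    exact Submodule.smul_mem _ _ (Submodule.mem_span_singleton_self _)
  have h2 : (ℝ ∙ (x : E) : Submodule ℝ E) ≠ ⊤ := by
    intro h
    have h3 := finrank_span_le_card (R := ℝ) ({(x : E)} : Set E)
    rw [h, finrank_top] at h3
    simp at h3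
    omega
  rw [measure_mono_null h1 (Measure.addHaar_submodule _ _ h2), mul_zero]

theorem integral_kernel_on (hn : 3 ≤ Module.finrank ℝ E) {x : E} (hx : ‖x‖ = 1) :
    ∫ y : sphere (0 : E) 1, ‖x - (y : E)‖ ^ (ex E) ∂(sph E) = (sph E).real univ := by
  have hex := (ex_lt hn).2.2.2.2
  set t : ℕ → ℝ := fun k => 1 - 1 / ((k : ℝ) + 2) with ht
  have ht0 : ∀ k, 0 < t k := by
    intro k
    rw [ht]
    simp only
    have : 1 / ((k : ℝ) + 2) < 1 := by
      rw [div_lt_one (by positivity)]
      have : (0 : ℝ) ≤ k := by positivity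
      linarith
    linarith
  have ht1 : ∀ k, t k < 1 := by
    intro k
    rw [ht]
    simp only
    have : 0 < 1 / ((k : ℝ) + 2) := by positivity
    linarith
  have htt : Tendsto t atTop (𝓝 1) := by
    have h1 : Tendsto (fun k : ℕ => 1 / ((k : ℝ) + 2)) atTop (𝓝 0) := by
      have h2 : Tendsto (fun k : ℕ => (k : ℝ) + 2) atTop atTop :=
        tendsto_atTop_add_const_right _ _ tendsto_natCast_atTop_atTop
      refine h2.inv_tendsto_atTop.congr fun k => ?_
      simp
    have h3 := h1.const_sub 1
    rw [sub_zero] at h3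
    exact h3
  set F : ℕ → sphere (0 : E) 1 → ENNReal := fun k y => ENNReal.ofReal (‖t k • x - (y : E)‖ ^ (ex E)) with hF
  set f : sphere (0 : E) 1 → ENNReal := fun y => ENNReal.ofReal (‖x - (y : E)‖ ^ (ex E)) with hf
  have hnorm : ∀ k, ‖t k • x‖ = t k := by
    intro k
    rw [norm_smul, hx, mul_one, Real.norm_of_nonneg (ht0 k).le]
  have hFint : ∀ k, ∫⁻ y, F k y ∂(sph E) = (sph E) univ := by
    intro k
    have h := lintegral_kernel_of_ne hn one_pos (x := t k • x) (by rw [hnorm]; exact (ht1 k).ne)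
    simp only [one_smul] at h
    rw [hnorm, max_eq_right (ht1 k).le, Real.one_rpow, ENNReal.ofReal_one, one_mul] at h
    exact h
  have hFm : ∀ k, Measurable (F k) := by
    intro k
    rw [hF]
    have : Continuous fun y : sphere (0 : E) 1 => ‖t k • x - (y : E)‖ := by fun_prop
    exact (this.measurable.pow_const _).ennreal_ofReal
  have hfm : Measurable f := by
    rw [hf]
    have : Continuous fun y : sphere (0 : E) 1 => ‖x - (y : E)‖ := by fun_prop
    exact (this.measurable.pow_const _).ennreal_ofReal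
  have hae : ∀ᵐ y : sphere (0 : E) 1 ∂(sph E), (y : E) ≠ x := by
    rw [ae_iff]
    have hxs : x ∈ sphere (0 : E) 1 := by rw [mem_sphere_iff_norm, sub_zero]; exact hx
    have h1 : {y : sphere (0 : E) 1 | ¬ (y : E) ≠ x} = {⟨x, hxs⟩} := by
      ext y
      simp only [not_not, mem_singleton_iff]
      constructor
      · intro h
        exact Subtype.ext h
      · intro h
        change (y : E) = x
        rw [h]
    rw [h1]
    exact sph_singleton hn _
  have hlim : ∀ᵐ y : sphere (0 : E) 1 ∂(sph E), Tendsto (fun k => F k y) atTop (𝓝 (f y)) := by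
    filter_upwards [hae] with y hy
    apply ENNReal.tendsto_ofReal
    have h1 : Tendsto (fun k => ‖t k • x - (y : E)‖) atTop (𝓝 ‖x - (y : E)‖) := by
      have h2 : Tendsto (fun k => t k • x - (y : E)) atTop (𝓝 ((1 : ℝ) • x - (y : E))) :=
        (htt.smul_const x).sub_const _
      rw [one_smul] at h2
      exact h2.norm
    exact h1.rpow_const (Or.inl (norm_ne_zero_iff.mpr (sub_ne_zero.mpr hy.symm)))
  -- Fatou
  have hfin : ∫⁻ y, f y ∂(sph E) ≤ (sph E) univ := by
    calc ∫⁻ y, f y ∂(sph E) = ∫⁻ y, liminf (fun k => F k y) atTop ∂(sph E) := by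
          apply lintegral_congr_ae
          filter_upwards [hlim] with y hy
          exact hy.liminf_eq.symm
      _ ≤ liminf (fun k => ∫⁻ y, F k y ∂(sph E)) atTop := lintegral_liminf_le hFm
      _ = (sph E) univ := by simp_rw [hFint]; simp
  -- domination
  have hdom : ∀ k, F k ≤ᵐ[sph E] fun y => ENNReal.ofReal ((2 : ℝ) ^ (-(ex E))) * f y := by
    intro k
    filter_upwards [hae] with y hy
    simp only [hF, hf]
    rw [← ENNReal.ofReal_mul (by positivity)]
    apply ENNReal.ofReal_le_ofReal
    have hy1 : ‖(y : E)‖ = 1 := by simp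
    have h1 : ‖x - (y : E)‖ ≤ 2 * ‖t k • x - (y : E)‖ := by
      have h2 : ‖x - t k • x‖ = 1 - t k := by
        have : x - t k • x = (1 - t k) • x := by rw [sub_smul (1 : ℝ) (t k) x, one_smul]
        rw [this, norm_smul, hx, mul_one, Real.norm_of_nonneg (by linarith [ht1 k])]
      have h3 : 1 - t k ≤ ‖t k • x - (y : E)‖ := by
        have h4 := norm_sub_norm_le (y : E) (t k • x)
        rw [hy1, hnorm, norm_sub_rev] at h4
        exact h4
      calc ‖x - (y : E)‖ = ‖(x - t k • x) + (t k • x - (y : E))‖ := by congr 1; abel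
        _ ≤ ‖x - t k • x‖ + ‖t k • x - (y : E)‖ := norm_add_le _ _
        _ ≤ _ := by rw [h2]; linarith
    have hpos : 0 < ‖x - (y : E)‖ := norm_pos_iff.mpr (sub_ne_zero.mpr hy.symm)
    have h5 : ‖t k • x - (y : E)‖ ^ (ex E) ≤ (‖x - (y : E)‖ / 2) ^ (ex E) :=
      Real.rpow_le_rpow_of_nonpos (by positivity) (by linarith) hex.le
    refine h5.trans ?_
    rw [Real.div_rpow hpos.le (by norm_num), Real.rpow_neg (by norm_num), div_eq_inv_mul]
  have hconv := tendsto_lintegral_of_dominated_convergence (μ := sph E)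
    (fun y => ENNReal.ofReal ((2 : ℝ) ^ (-(ex E))) * f y) hFm hdom
    (by
      rw [lintegral_const_mul _ hfm]
      apply ENNReal.mul_ne_top ENNReal.ofReal_ne_top
      exact ne_top_of_le_ne_top (measure_ne_top _ _) hfin) hlim
  simp_rw [hFint] at hconv
  have hval : ∫⁻ y, f y ∂(sph E) = (sph E) univ := (tendsto_nhds_unique hconv tendsto_const_nhds)
  have hm : Measurable fun y : sphere (0 : E) 1 => ‖x - (y : E)‖ ^ (ex E) := by
    have : Continuous fun y : sphere (0 : E) 1 => ‖x - (y : E)‖ := by fun_prop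
    exact this.measurable.pow_const _
  rw [integral_eq_lintegral_of_nonneg_ae (Filter.Eventually.of_forall fun y => by positivity)
    hm.aestronglyMeasurable]
  change (∫⁻ y, f y ∂(sph E)).toReal = _
  rw [hval]
  rfl

/-- the mean of the kernel over the unit sphere -/
theorem integral_kernel_unit (hn : 3 ≤ Module.finrank ℝ E) (x : E) :
    ∫ y : sphere (0 : E) 1, ‖x - (y : E)‖ ^ (ex E) ∂(sph E)
      = (max 1 ‖x‖) ^ (ex E) * (sph E).real univ := by
  rcases lt_trichotomy ‖x‖ 1 with h | h | h
  · rw [integral_kernel_inside hn h, max_eq_left h.le, Real.one_rpow, one_mul]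
  · rw [integral_kernel_on hn h, h, max_self, Real.one_rpow, one_mul]
  · rw [integral_kernel_outside hn h, max_eq_right h.le]

end Pool.Agent.Helper41.MVC
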